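import Pool.Agent.Run7.h523.TW.Ext
import Pool.Agent.Run7.h523.FM.Cell

set_option autoImplicit false

/-!
# The estimate for one block, Euclidean form
-/

open MeasureTheory Set Metric
open scoped ENNReal

namespace Run7.h523.TW

open Run7.h523.WF (E)
open Run7.h523.FM (Av T vb vb_pos FrontOn cell_est measurable_Av)

/-- The front condition for the slopes in `D` of norm at most one and the heights in `[0, 1]`;
void in dimension one. -/
def Loc {d : ℕ} (ρ : ℝ) (D : Set (E d)) (a : E d → E d) : Prop :=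
  2 ≤ d → ∀ v ∈ D, ∀ w ∈ D, ‖v‖ ≤ 1 → ‖v‖ = ‖w‖ → ‖v - w‖ ≤ ρ → ∀ s ∈ Icc (0 : ℝ) 1,
    ∀ s' ∈ Icc (0 : ℝ) 1, |s - s'| ≤ ρ → ‖(a v + s • v) - (a w + s' • w)‖ ≤ ρ →
    ‖v‖ * |s - s'| ≤ ‖(a v + s • v) - (a w + s' • w)‖

theorem cellS {d : ℕ} (hd : 1 ≤ d) {ρ : ℝ} (hρ0 : 0 < ρ) (hρ1 : ρ ≤ 1) :
    ∃ C : ℝ≥0∞, C ≠ ∞ ∧ 1 ≤ C ∧ ∀ (δ : ℝ), 0 < δ → δ ≤ 1 → ∀ (a : E d → E d) (S : Set (E d))
      (f : E d × ℝ → ℝ≥0∞), Measurable a → MeasurableSet S → (∀ v ∈ S, ‖v‖ ≤ 1) →
      FrontOn ρ a (fun _ => 0) S → Measurable f → (∀ y, f y ≤ 1) →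
      ∫⁻ v in S, Av δ a (fun _ => 0) 0 1 f v ≤
        C * ENNReal.ofReal (δ ^ d) * ENNReal.ofReal (1 + Real.log (1 / δ)) ^ 2 *
          (∫⁻ y, f y) ^ (1 / ((d : ℝ) + 2)) := by
  obtain ⟨C, hC, hest⟩ := cell_est (d := d) hd (p := (d : ℝ) + 2)
    (by have : (1:ℝ) ≤ d := by exact_mod_cast hd
        linarith) hρ0 hρ1
  set p : ℝ := (d : ℝ) + 2 with hp
  have hp2 : 2 < p := by
    have : (1:ℝ) ≤ d := by exact_mod_cast hd
    linarith
  have hp0 : 0 < p := by linarith
  set C1 : ℝ≥0∞ := volume (closedBall (0 : E d) 1) ^ (1 - 1 / p) * ENNReal.ofReal (C ^ (1 / p))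
    with hC1
  have hip : 1 / p ≤ 1 := by rw [div_le_one hp0]; linarith
  have hC1t : C1 ≠ ∞ := ENNReal.mul_ne_top
    (ENNReal.rpow_ne_top_of_nonneg (by linarith) measure_closedBall_lt_top.ne)
    ENNReal.ofReal_ne_top
  refine ⟨1 + C1, ENNReal.add_ne_top.2 ⟨ENNReal.one_ne_top, hC1t⟩, le_self_add, ?_⟩
  intro δ hδ hδ1 a S f ha hS hS1 hF hf hf1
  set L : ℝ := 1 + Real.log (1 / δ) with hL
  have hlog : 0 ≤ Real.log (1 / δ) := Real.log_nonneg (by rw [le_div_iff₀ hδ]; linarith)
  have hL1 : 1 ≤ L := by linarith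
  by_cases hfin : ∫⁻ y, f y = ∞
  · rw [hfin, ENNReal.top_rpow_of_pos (by positivity)]
    rw [ENNReal.mul_top]
    · exact le_top
    · refine mul_ne_zero (mul_ne_zero ?_ ?_) (pow_ne_zero _ ?_)
      · exact (lt_of_lt_of_le one_pos le_self_add).ne'
      · exact (ENNReal.ofReal_pos.2 (by positivity)).ne'
      · exact (ENNReal.ofReal_pos.2 (by linarith)).ne'
  have hfr : ∀ y, ENNReal.ofReal (f y).toReal = f y := fun y =>
    ENNReal.ofReal_toReal ((hf1 y).trans_lt ENNReal.one_lt_top).ne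
  have hfp : ∫⁻ y, f y ^ p ≤ ∫⁻ y, f y := by
    apply lintegral_mono
    intro y
    calc f y ^ p ≤ f y ^ (1 : ℝ) := ENNReal.rpow_le_rpow_of_exponent_ge (hf1 y) (by linarith)
      _ = f y := ENNReal.rpow_one _
  have h1 := hest δ hδ hδ1 a (fun _ => 0) S (fun y => (f y).toReal) ha measurable_const hS hS1 hF
    hf.ennreal_toReal (fun y => ENNReal.toReal_nonneg)
    (by simp_rw [hfr]; exact (hfp.trans_lt (lt_top_iff_ne_top.2 hfin)).ne)
  simp_rw [hfr] at h1
  have hmax : max ((d : ℝ) + 1 - p) 0 = 0 := max_eq_right (by linarith)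
  rw [hmax, neg_zero, Real.rpow_zero, mul_one] at h1
  have hAm : Measurable (Av δ a (fun _ => 0) 0 1 f) := measurable_Av ha measurable_const hf
  have h2 := jensen (volume.restrict S) (h := fun v => Av δ a (fun _ => 0) 0 1 f v ^ p)
    (hAm.pow_const _) (θ := 1 / p) (by positivity) hip
  have h3 : ∀ v, (Av δ a (fun _ => 0) 0 1 f v ^ p) ^ (1 / p) = Av δ a (fun _ => 0) 0 1 f v := by
    intro v
    rw [← ENNReal.rpow_mul, mul_one_div_cancel hp0.ne', ENNReal.rpow_one]
  simp only [h3, Measure.restrict_apply_univ] at h2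
  refine h2.trans ?_
  calc volume S ^ (1 - 1 / p) * (∫⁻ v in S, Av δ a (fun _ => 0) 0 1 f v ^ p) ^ (1 / p)
      ≤ volume (closedBall (0 : E d) 1) ^ (1 - 1 / p) *
        (ENNReal.ofReal (C * δ ^ ((d : ℝ) * p) * L ^ (p + 1)) * ∫⁻ y, f y) ^ (1 / p) := by
        have e1 : 0 ≤ 1 - 1 / p := by linarith
        gcongr
        · intro v hv
          rw [mem_closedBall_zero_iff]
          exact hS1 v hv
        · exact h1.trans (by gcongr)
    _ = C1 * ENNReal.ofReal (δ ^ d) * ENNReal.ofReal (L ^ ((p + 1) / p)) *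
          (∫⁻ y, f y) ^ (1 / p) := by
        rw [ENNReal.mul_rpow_of_nonneg _ _ (by positivity), ENNReal.ofReal_rpow_of_nonneg
          (by positivity) (by positivity), Real.mul_rpow (by positivity) (by positivity),
          Real.mul_rpow (by positivity) (by positivity), ← Real.rpow_mul hδ.le,
          ← Real.rpow_mul (by linarith), hC1, ENNReal.ofReal_mul (by positivity),
          ENNReal.ofReal_mul (by positivity)]
        have e2 : (d : ℝ) * p * (1 / p) = d := by field_simp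
        have e3 : (p + 1) * (1 / p) = (p + 1) / p := by ring
        rw [e2, e3, Real.rpow_natCast]
        ring
    _ ≤ (1 + C1) * ENNReal.ofReal (δ ^ d) * ENNReal.ofReal L ^ 2 * (∫⁻ y, f y) ^ (1 / p) := by
        have e4 : ENNReal.ofReal (L ^ ((p + 1) / p)) ≤ ENNReal.ofReal L ^ 2 := by
          rw [← ENNReal.ofReal_pow (by linarith)]
          apply ENNReal.ofReal_le_ofReal
          rw [← Real.rpow_natCast]
          apply Real.rpow_le_rpow_of_exponent_le hL1
          rw [div_le_iff₀ hp0]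
          push_cast
          linarith
        gcongr
        exact le_add_self

theorem block_ball {d : ℕ} (hd : 1 ≤ d) {ρ : ℝ} (hρ0 : 0 < ρ) :
    ∃ C : ℝ≥0∞, C ≠ ∞ ∧ ∀ (δ : ℝ), 0 < δ → δ ≤ 1 → ∀ (a : E d → E d) (D : Set (E d))
      (f : E d × ℝ → ℝ≥0∞), Measurable a → MeasurableSet D → Loc ρ D a → Measurable f →
      (∀ y, f y ≤ 1) →
      ∫⁻ v in D ∩ closedBall 0 1, Av δ a (fun _ => 0) 0 1 f v ≤
        C * ENNReal.ofReal (δ ^ d) * ENNReal.ofReal (1 + Real.log (1 / δ)) ^ 2 *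
          (∫⁻ y, f y) ^ (1 / ((d : ℝ) + 2)) := by
  classical
  set ρ' := min ρ 1 with hρ'
  have hρ'0 : 0 < ρ' := lt_min hρ0 one_pos
  obtain ⟨C, hCt, -, hest⟩ := cellS hd hρ'0 (min_le_right _ _)
  obtain ⟨t, -, htf, hcov⟩ := (isCompact_closedBall (0 : E d) 1).finite_cover_balls
    (e := ρ' / 2) (by positivity)
  set t' := htf.toFinset with ht'
  set i₀ : Fin d := ⟨0, hd⟩ with hi₀
  set sgn : Bool → Set (E d) := fun b => {v : E d | (0 ≤ v i₀) ↔ b = true} with hsgn
  have hsgnm : ∀ b, MeasurableSet (sgn b) := by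
    intro b
    have h0 : MeasurableSet {v : E d | 0 ≤ v i₀} := measurableSet_le (by fun_prop) (by fun_prop)
    cases b
    · have : sgn false = {v : E d | 0 ≤ v i₀}ᶜ := by
        ext v
        simp [hsgn]
      rw [this]
      exact h0.compl
    · have : sgn true = {v : E d | 0 ≤ v i₀} := by
        ext v
        simp [hsgn]
      rw [this]
      exact h0
  refine ⟨((t' ×ˢ (Finset.univ : Finset Bool)).card : ℝ≥0∞) * C,
    ENNReal.mul_ne_top (ENNReal.natCast_ne_top _) hCt, ?_⟩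
  intro δ hδ hδ1 a D f ha hD hloc hf hf1
  set Sx : E d × Bool → Set (E d) := fun x => (D ∩ closedBall 0 1) ∩ (ball x.1 (ρ' / 2) ∩ sgn x.2)
    with hSx
  have hSm : ∀ x, MeasurableSet (Sx x) := fun x =>
    (hD.inter isClosed_closedBall.measurableSet).inter
      (isOpen_ball.measurableSet.inter (hsgnm _))
  set Y := C * ENNReal.ofReal (δ ^ d) * ENNReal.ofReal (1 + Real.log (1 / δ)) ^ 2 *
          (∫⁻ y, f y) ^ (1 / ((d : ℝ) + 2)) with hY
  have hcell : ∀ x, ∫⁻ v in Sx x, Av δ a (fun _ => 0) 0 1 f v ≤ Y := by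
    intro x
    refine hest δ hδ hδ1 a (Sx x) f ha (hSm x) (fun v hv => mem_closedBall_zero_iff.1 hv.1.2) ?_
      hf hf1
    intro v hv w hw hvw s hs s' hs' h1 h2
    have h6 : ‖v - w‖ ≤ ρ := by
      have h3 : dist v w ≤ dist v x.1 + dist w x.1 := dist_triangle_right _ _ _
      have h4 := mem_ball.1 hv.2.1
      have h5 := mem_ball.1 hw.2.1
      rw [← dist_eq_norm]
      have := min_le_left ρ 1
      linarith
    rcases Nat.lt_or_ge d 2 with hd2 | hd2
    · have hd1 : d = 1 := by omega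
      subst hd1
      have hsub : Subsingleton (Fin 1) := inferInstance
      have hi : i₀ = 0 := Subsingleton.elim _ _
      have hn : ∀ u : E 1, ‖u‖ = |u 0| := by
        intro u
        rw [EuclideanSpace.norm_eq]
        simp [Real.sqrt_sq_eq_abs]
      have hvw' : v = w := by
        ext i
        have hi0 : i = 0 := Subsingleton.elim _ _
        subst hi0
        have h7 := hv.2.2
        have h8 := hw.2.2
        simp only [hsgn, Set.mem_ofPred_eq, hi] at h7 h8
        rw [hn, hn] at hvw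
        rcases le_or_gt 0 (v 0) with h9 | h9
        · have h10 : 0 ≤ w 0 := h8.2 (h7.1 h9)
          rwa [abs_of_nonneg h9, abs_of_nonneg h10] at hvw
        · have h10 : w 0 < 0 := by
            by_contra hc
            rw [not_lt] at hc
            exact absurd (h7.2 (h8.1 hc)) (not_le.2 h9)
          rw [abs_of_neg h9, abs_of_neg h10] at hvw
          linarith
      subst hvw'
      have e1 : (a v + s • v) - (a v + s' • v) = (s - s') • v := by
        rw [sub_smul]; abel
      rw [e1, norm_smul, Real.norm_eq_abs, mul_comm]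
    · refine hloc hd2 v hv.1.1 w hw.1.1 (mem_closedBall_zero_iff.1 hv.1.2) hvw h6 s ?_ s' ?_
        (h1.trans (min_le_left _ _)) (h2.trans (min_le_left _ _))
      · simpa using hs
      · simpa using hs'
  have hAm : Measurable (Av δ a (fun _ => 0) 0 1 f) := measurable_Av ha measurable_const hf
  calc ∫⁻ v in D ∩ closedBall (0 : E d) 1, Av δ a (fun _ => 0) 0 1 f v
      ≤ ∑ x ∈ t' ×ˢ (Finset.univ : Finset Bool), ∫⁻ v in Sx x, Av δ a (fun _ => 0) 0 1 f v := by
        rw [← lintegral_indicator (hD.inter isClosed_closedBall.measurableSet)]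
        have h1 : ∀ x ∈ t' ×ˢ (Finset.univ : Finset Bool),
            ∫⁻ v in Sx x, Av δ a (fun _ => 0) 0 1 f v =
            ∫⁻ v, (Sx x).indicator (Av δ a (fun _ => 0) 0 1 f) v := fun x _ =>
          (lintegral_indicator (hSm x) _).symm
        rw [Finset.sum_congr rfl h1, ← lintegral_finsetSum _ fun x _ => hAm.indicator (hSm x)]
        apply lintegral_mono
        intro v
        by_cases hv : v ∈ D ∩ closedBall (0 : E d) 1
        · simp only
          rw [indicator_of_mem hv]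
          obtain ⟨x, hx, hvx⟩ := mem_iUnion₂.1 (hcov hv.2)
          have hmem : v ∈ Sx (x, decide (0 ≤ v i₀)) := ⟨hv, hvx, by simp [hsgn]⟩
          calc Av δ a (fun _ => 0) 0 1 f v
              = (Sx (x, decide (0 ≤ v i₀))).indicator (Av δ a (fun _ => 0) 0 1 f) v := by
                  rw [indicator_of_mem hmem]
            _ ≤ _ := Finset.single_le_sum (f := fun x => (Sx x).indicator
              (Av δ a (fun _ => 0) 0 1 f) v) (fun _ _ => zero_le)
              (Finset.mem_product.2 ⟨htf.mem_toFinset.2 hx, Finset.mem_univ _⟩)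
        · simp only
          rw [indicator_of_notMem hv]; exact zero_le
    _ ≤ (t' ×ˢ (Finset.univ : Finset Bool)).card • Y :=
        Finset.sum_le_card_nsmul _ _ _ fun x _ => hcell x
    _ = _ := by
        rw [nsmul_eq_mul, hY]
        ring

end Run7.h523.TW
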