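import Pool.Agent.Run7.h523.TW.Scale

set_option autoImplicit false
set_option linter.unusedSectionVars false

/-!
# The estimate for one block
-/

open MeasureTheory Set Metric
open scoped ENNReal

namespace Run7.h523.TW

open Run7.h523.WF (E)
open Run7.h523.FM (Av T measurable_Av measurable_T)

/-- The front condition for the slopes in `D` and the heights in `J`; void in dimension one. -/
def LocP {κ : Type*} [Fintype κ] (ρ : ℝ) (J : Set ℝ) (D : Set (κ → ℝ))
    (α : (κ → ℝ) → (κ → ℝ)) : Prop :=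
  2 ≤ Fintype.card κ → ∀ v ∈ D, ∀ w ∈ D, nrm v = nrm w → nrm (v - w) ≤ ρ → ∀ s ∈ J, ∀ s' ∈ J,
    |s - s'| ≤ ρ → nrm ((α v + s • v) - (α w + s' • w)) ≤ ρ →
    nrm v * |s - s'| ≤ nrm ((α v + s • v) - (α w + s' • w))

section setup

variable {κ : Type*} [Fintype κ] {d : ℕ} (e : κ ≃ Fin d) (c h Λ : ℝ)
  (α : (κ → ℝ) → (κ → ℝ)) (D : Set (κ → ℝ)) (f : (κ → ℝ) × ℝ → ℝ≥0∞)

/-- rescaled positions -/
noncomputable def ta (x : E d) : E d :=
  Λ⁻¹ • psi e (α (phi e ((Λ / h) • x)) + c • phi e ((Λ / h) • x))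

/-- rescaled function -/
noncomputable def tf (q : E d × ℝ) : ℝ≥0∞ := f (phi e (Λ • q.1), c + h * q.2)

variable {e c h Λ α D f}

theorem measurable_ta (hα : Measurable α) : Measurable (ta e c h Λ α) := by
  have h1 : Measurable (fun x : E d => phi e ((Λ / h) • x)) :=
    (measurable_phi e).comp (measurable_const_smul (Λ / h))
  have h2 : Measurable (fun x : E d =>
      psi e (α (phi e ((Λ / h) • x)) + c • phi e ((Λ / h) • x))) :=
    (measurable_psi e).comp ((hα.comp h1).add (h1.const_smul c))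
  exact h2.const_smul Λ⁻¹

theorem measurable_tf (hf : Measurable f) : Measurable (tf e c h Λ f) := by
  unfold tf
  exact hf.comp (((measurable_phi e).comp (by fun_prop)).prodMk (by fun_prop))

theorem key (hΛ : 0 < Λ) (hh : 0 < h) (x : E d) (u : ℝ) :
    phi e (Λ • (ta e c h Λ α x + u • x)) =
      α (phi e ((Λ / h) • x)) + (c + h * u) • phi e ((Λ / h) • x) := by
  unfold ta
  rw [smul_add, smul_smul, mul_inv_cancel₀ hΛ.ne', one_smul, phi_add, phi_psi, add_smul,
    add_assoc]
  congr 2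
  rw [smul_smul, ← phi_smul, smul_smul]
  congr 2
  field_simp

theorem tf_int (hΛ : 0 < Λ) (hh : 0 < h) (hf : Measurable f) :
    ∫⁻ q, f q = ENNReal.ofReal (Λ ^ d) * ENNReal.ofReal h * ∫⁻ q, tf e c h Λ f q := by
  rw [Measure.volume_eq_prod, Measure.volume_eq_prod, lintegral_prod_symm' _ (measurable_tf hf),
    lintegral_prod_symm' _ hf]
  have h1 : ∀ t, ∫⁻ u : κ → ℝ, f (u, t) =
      ENNReal.ofReal (Λ ^ d) * ∫⁻ x : E d, f (phi e (Λ • x), t) := by
    intro t
    rw [lint_phi e (F := fun u => f (u, t)) (by fun_prop)]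
    exact lint_smul hΛ (F := fun x => f (phi e x, t))
      (hf.comp ((measurable_phi e).prodMk measurable_const))
  simp_rw [h1]
  rw [lintegral_const_mul' _ _ ENNReal.ofReal_ne_top, mul_assoc]
  congr 1
  rw [lint_real hh c]
  · rfl
  · apply Measurable.lintegral_prod_right' (f := fun q : ℝ × E d => f (phi e (Λ • q.2), q.1))
    exact hf.comp (((measurable_phi e).comp (by fun_prop)).prodMk (by fun_prop))

theorem Av_eq {δ : ℝ} {a : E d → E d} (ha : Measurable a) {F : E d × ℝ → ℝ≥0∞}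
    (hF : Measurable F) (x : E d) :
    Av δ a (fun _ => 0) 0 1 F x =
      ∫⁻ u in Icc (0 : ℝ) 1, ∫⁻ z in closedBall (a x + u • x) δ, F (z, u) := by
  unfold Av
  have hT := measurable_T (δ := δ) (τ := fun _ : E d => (0 : ℝ)) (α := 0) (β := 1) ha
    measurable_const x
  rw [← lintegral_indicator hT, Measure.volume_eq_prod, lintegral_prod_symm' _ (hF.indicator hT),
    ← lintegral_indicator measurableSet_Icc]
  congr 1
  ext u
  by_cases hu : u ∈ Icc (0 : ℝ) 1
  · rw [indicator_of_mem hu, ← lintegral_indicator isClosed_closedBall.measurableSet]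
    congr 1
    ext z
    by_cases hz : z ∈ closedBall (a x + u • x) δ
    · have h1 : (z, u) ∈ T δ a (fun _ => 0) 0 1 x := by
        refine ⟨by simpa using hu, ?_⟩
        rwa [mem_closedBall, dist_eq_norm] at hz
      rw [indicator_of_mem h1, indicator_of_mem hz]
    · have h1 : (z, u) ∉ T δ a (fun _ => 0) 0 1 x := by
        intro h2
        apply hz
        rw [mem_closedBall, dist_eq_norm]
        exact h2.2
      rw [indicator_of_notMem h1, indicator_of_notMem hz]
  · rw [indicator_of_notMem hu]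
    have : ∀ z, (T δ a (fun _ => 0) 0 1 x).indicator F (z, u) = 0 := by
      intro z
      apply indicator_of_notMem
      intro h2
      apply hu
      simpa using h2.1
    simp_rw [this]
    simp

theorem G_le (hd : Fintype.card κ = d) (hΛ : 0 < Λ) (hh : 0 < h) {δ : ℝ} (hδ : 0 < δ)
    (hα : Measurable α) (hf : Measurable f) (x : E d) :
    G (Icc c (c + h)) δ α f (phi e ((Λ / h) • x)) ≤
      ENNReal.ofReal h * ENNReal.ofReal ((Λ / δ) ^ d) *
        Av (√d * δ / Λ) (ta e c h Λ α) (fun _ => 0) 0 1 (tf e c h Λ f) x := by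
  rw [Av_eq (measurable_ta hα) (measurable_tf hf)]
  set v := phi e ((Λ / h) • x) with hv
  set H : ℝ → ℝ≥0∞ := fun t => ∫⁻ y in closedBall (0 : κ → ℝ) 1, f (α v + t • v + δ • y, t) with hH
  have hHm : Measurable H := by
    apply Measurable.lintegral_prod_right' (f := fun q : ℝ × (κ → ℝ) =>
      f (α v + q.1 • v + δ • q.2, q.1))
    fun_prop
  have h1 : G (Icc c (c + h)) δ α f v = ENNReal.ofReal h * ∫⁻ u in Icc (0 : ℝ) 1, H (c + h * u) := by
    unfold G
    rw [← lintegral_indicator measurableSet_Icc, lint_real hh c (hHm.indicator measurableSet_Icc),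
      ← lintegral_indicator measurableSet_Icc]
    congr 2
    ext u
    by_cases hu : u ∈ Icc (0 : ℝ) 1
    · have : c + h * u ∈ Icc c (c + h) := by
        refine ⟨?_, ?_⟩
        · have := mul_nonneg hh.le hu.1
          linarith
        · have := mul_le_mul_of_nonneg_left hu.2 hh.le
          linarith
      rw [indicator_of_mem hu, indicator_of_mem this]
    · have : c + h * u ∉ Icc c (c + h) := by
        rintro ⟨h2, h3⟩
        apply hu
        constructor
        · by_contra hc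
          rw [not_le] at hc
          have := mul_neg_of_pos_of_neg hh hc
          linarith
        · by_contra hc
          rw [not_le] at hc
          have := mul_lt_mul_of_pos_left hc hh
          linarith
      rw [indicator_of_notMem hu, indicator_of_notMem this]
  rw [h1, mul_assoc]
  refine mul_le_mul' le_rfl ?_
  rw [← lintegral_const_mul' _ _ ENNReal.ofReal_ne_top]
  apply lintegral_mono
  intro u
  simp only [hH]
  have hkey := key (e := e) (c := c) (α := α) hΛ hh x u
  rw [← hv] at hkey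
  set b := ta e c h Λ α x + u • x with hb
  have hδΛ : 0 < δ / Λ := by positivity
  rw [← lintegral_indicator (isClosed_closedBall (x := (0 : κ → ℝ))).measurableSet,
    lint_phi e (Measurable.indicator (by fun_prop) isClosed_closedBall.measurableSet),
    ← lintegral_indicator (isClosed_closedBall (x := b)).measurableSet,
    lint_affine hδΛ b (Measurable.indicator (by
      have := measurable_tf (e := e) (c := c) (h := h) (Λ := Λ) hf
      fun_prop) isClosed_closedBall.measurableSet), ← mul_assoc,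
    ← ENNReal.ofReal_mul (by positivity), ← mul_pow]
  have e1 : Λ / δ * (δ / Λ) = 1 := by field_simp
  rw [e1, one_pow, ENNReal.ofReal_one, one_mul]
  apply lintegral_mono
  intro z
  simp only
  by_cases hz : phi e z ∈ closedBall (0 : κ → ℝ) 1
  · have h2 : b + (δ / Λ) • z ∈ closedBall b (√d * δ / Λ) := by
      rw [mem_closedBall, dist_eq_norm, add_sub_cancel_left, norm_smul, Real.norm_eq_abs,
        abs_of_pos hδΛ, ← nrm_phi e z]
      rw [mem_closedBall_zero_iff] at hz
      have h3 := nrm_le hz hd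
      rw [mul_one] at h3
      calc δ / Λ * nrm (phi e z) ≤ δ / Λ * √d := by gcongr
        _ = _ := by ring
    rw [indicator_of_mem hz, indicator_of_mem h2]
    refine le_of_eq ?_
    unfold tf
    simp only
    congr 2
    rw [smul_add, phi_add, hkey, smul_smul, mul_div_cancel₀ _ hΛ.ne', phi_smul]
  · rw [indicator_of_notMem hz]
    exact zero_le

theorem ta_loc {ρ : ℝ} (hd : Fintype.card κ = d) (hΛ : 0 < Λ) (hh : 0 < h)
    (hloc : LocP ρ (Icc c (c + h)) D α) {ρ' : ℝ} (h1 : ρ' ≤ ρ / (Λ / h)) (h2 : ρ' ≤ ρ / h)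
    (h3 : ρ' ≤ ρ / Λ) :
    Loc ρ' {x : E d | phi e ((Λ / h) • x) ∈ D} (ta e c h Λ α) := by
  intro hd2 v hv w hw _ hvw hvw2 s hs s' hs' hss hx
  have hμ : 0 < Λ / h := by positivity
  have hJ : ∀ s ∈ Icc (0 : ℝ) 1, c + h * s ∈ Icc c (c + h) := by
    intro s hs
    constructor
    · have := mul_nonneg hh.le hs.1
      linarith
    · have := mul_le_mul_of_nonneg_left hs.2 hh.le
      linarith
  have hn : ∀ x : E d, nrm (phi e ((Λ / h) • x)) = (Λ / h) * ‖x‖ := by
    intro x
    rw [nrm_phi, norm_smul, Real.norm_eq_abs, abs_of_pos hμ]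
  have hdiff : nrm ((α (phi e ((Λ / h) • v)) + (c + h * s) • phi e ((Λ / h) • v)) -
      (α (phi e ((Λ / h) • w)) + (c + h * s') • phi e ((Λ / h) • w))) =
      Λ * ‖(ta e c h Λ α v + s • v) - (ta e c h Λ α w + s' • w)‖ := by
    rw [← key hΛ hh v s, ← key hΛ hh w s', ← phi_sub, nrm_phi, ← smul_sub, norm_smul,
      Real.norm_eq_abs, abs_of_pos hΛ]
  have habs : |c + h * s - (c + h * s')| = h * |s - s'| := by
    rw [add_sub_add_left_eq_sub, ← mul_sub, abs_mul, abs_of_pos hh]
  have h4 := hloc (by omega) _ hv _ hw (by rw [hn, hn, hvw]) (by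
      rw [← phi_sub, ← smul_sub, hn]
      have := hvw2.trans h1
      rwa [le_div_iff₀' hμ] at this) (c + h * s) (hJ s hs) (c + h * s') (hJ s' hs')
    (by
      rw [habs]
      have := hss.trans h2
      rwa [le_div_iff₀' hh] at this) (by
      rw [hdiff]
      have := hx.trans h3
      rwa [le_div_iff₀' hΛ] at this)
  rw [hdiff, habs, hn] at h4
  have e1 : Λ / h * ‖v‖ * (h * |s - s'|) = Λ * (‖v‖ * |s - s'|) := by field_simp
  rw [e1] at h4
  exact le_of_mul_le_mul_left h4 hΛ

end setup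

theorem block_pos {κ : Type*} [Fintype κ] {d : ℕ} (hcard : Fintype.card κ = d) (hd : 1 ≤ d)
    {ρ h L : ℝ} (c R : ℝ) (hρ : 0 < ρ) (hh : 0 < h) (hL : 0 ≤ L) :
    ∃ C : ℝ≥0∞, C ≠ ∞ ∧ ∀ δ : ℝ, 0 < δ → δ ≤ 1 → ∀ (D : Set (κ → ℝ)) (α : (κ → ℝ) → (κ → ℝ)),
      Measurable α → MeasurableSet D → LocP ρ (Icc c (c + h)) (D ∩ closedBall 0 L) α →
      EstAt (Icc c (c + h)) L R δ (1 / ((d : ℝ) + 2))
        (C * ENNReal.ofReal (1 + Real.log (1 / δ)) ^ 2) D α := by
  set e : κ ≃ Fin d := Fintype.equivFinOfCardEq hcard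
  have hdr : (1 : ℝ) ≤ d := by exact_mod_cast hd
  have hsd : 1 ≤ √d := Real.one_le_sqrt.2 hdr
  have hLh : 0 ≤ L * h := by positivity
  obtain ⟨Λ, hΛdef⟩ : ∃ Λ : ℝ, Λ = √d * (1 + L * h) := ⟨_, rfl⟩
  have hΛd : √d ≤ Λ := by rw [hΛdef]; nlinarith
  have hΛ : 0 < Λ := by linarith
  have hΛL : √d * L * h ≤ Λ := by rw [hΛdef]; nlinarith
  set μ : ℝ := Λ / h with hμdef
  have hμ : 0 < μ := by positivity
  set ρ' : ℝ := min (ρ / μ) (min (ρ / h) (ρ / Λ)) with hρ'
  have hρ'0 : 0 < ρ' := lt_min (by positivity) (lt_min (by positivity) (by positivity))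
  obtain ⟨C0, hC0, hest⟩ := block_ball hd hρ'0
  set q : ℝ := 1 / ((d : ℝ) + 2) with hq
  have hq0 : 0 < q := by positivity
  have hK0 : ENNReal.ofReal (Λ ^ d) * ENNReal.ofReal h ≠ 0 :=
    mul_ne_zero (ENNReal.ofReal_pos.2 (by positivity)).ne' (ENNReal.ofReal_pos.2 hh).ne'
  have hKt : ENNReal.ofReal (Λ ^ d) * ENNReal.ofReal h ≠ ∞ :=
    ENNReal.mul_ne_top ENNReal.ofReal_ne_top ENNReal.ofReal_ne_top
  set C2 : ℝ≥0∞ := (ENNReal.ofReal (Λ ^ d) * ENNReal.ofReal h)⁻¹ with hC2
  have hC2t : C2 ≠ ∞ := ENNReal.inv_ne_top.2 hK0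
  set g : ℝ := 1 + Real.log (Λ / √d) with hg
  have hg0 : 0 ≤ Real.log (Λ / √d) := Real.log_nonneg (by rw [le_div_iff₀ (by positivity)]; linarith)
  refine ⟨ENNReal.ofReal (μ ^ d) * (ENNReal.ofReal h * ENNReal.ofReal ((√d) ^ d) * C0 *
    ENNReal.ofReal g ^ 2 * C2 ^ q), ?_, ?_⟩
  · refine ENNReal.mul_ne_top ENNReal.ofReal_ne_top (ENNReal.mul_ne_top (ENNReal.mul_ne_top
      (ENNReal.mul_ne_top (ENNReal.mul_ne_top ENNReal.ofReal_ne_top ENNReal.ofReal_ne_top) hC0)
      (ENNReal.pow_ne_top ENNReal.ofReal_ne_top)) (ENNReal.rpow_ne_top_of_nonneg hq0.le hC2t))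
  intro δ hδ hδ1 D α hα hD hloc f hf hf1 hfR
  have hBm : MeasurableSet (D ∩ closedBall (0 : κ → ℝ) L) :=
    hD.inter isClosed_closedBall.measurableSet
  set D₁ : Set (E d) := {x : E d | phi e (μ • x) ∈ D ∩ closedBall 0 L} with hD₁
  have hpm : Measurable (fun x : E d => phi e (μ • x)) :=
    (measurable_phi e).comp (measurable_const_smul _)
  have hD₁m : MeasurableSet D₁ := hpm hBm
  have hD₁1 : D₁ ⊆ closedBall 0 1 := by
    intro x hx
    have h1 : ‖phi e (μ • x)‖ ≤ L := mem_closedBall_zero_iff.1 hx.2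
    have h2 := nrm_le h1 hcard
    rw [nrm_phi, norm_smul, Real.norm_eq_abs, abs_of_pos hμ] at h2
    rw [mem_closedBall_zero_iff]
    by_contra hc
    rw [not_le] at hc
    have h3 : μ < μ * ‖x‖ := by nlinarith
    have h4 : √d * L ≤ μ := by
      rw [hμdef, le_div_iff₀ hh]
      exact hΛL
    linarith
  set δ₁ : ℝ := √d * δ / Λ with hδ₁
  have hδ₁0 : 0 < δ₁ := by positivity
  have hδ₁1 : δ₁ ≤ 1 := by
    rw [hδ₁, div_le_one hΛ]
    nlinarith
  have hlocE := ta_loc (e := e) hcard hΛ hh hloc (ρ' := ρ') (min_le_left _ _)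
    ((min_le_right _ _).trans (min_le_left _ _)) ((min_le_right _ _).trans (min_le_right _ _))
  have hmain := hest δ₁ hδ₁0 hδ₁1 (ta e c h Λ α) D₁ (tf e c h Λ f) (measurable_ta hα) hD₁m hlocE
    (measurable_tf hf) (fun y => hf1 _)
  have hfint : ∫⁻ y, tf e c h Λ f y = C2 * ∫⁻ y, f y := by
    rw [tf_int (e := e) (c := c) hΛ hh hf, ← mul_assoc, hC2, ENNReal.inv_mul_cancel hK0 hKt, one_mul]
  have hlog : 0 ≤ Real.log (1 / δ) := Real.log_nonneg (by rw [le_div_iff₀ hδ]; linarith)
  have hloge : Real.log (1 / δ₁) = Real.log (Λ / √d) + Real.log (1 / δ) := by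
    rw [← Real.log_mul (by positivity) (by positivity)]
    congr 1
    rw [hδ₁]
    field_simp
  have hlog1 : ENNReal.ofReal (1 + Real.log (1 / δ₁)) ≤
      ENNReal.ofReal g * ENNReal.ofReal (1 + Real.log (1 / δ)) := by
    rw [← ENNReal.ofReal_mul (by positivity)]
    apply ENNReal.ofReal_le_ofReal
    rw [hloge, hg]
    nlinarith
  calc ∫⁻ v in D ∩ closedBall 0 L, G (Icc c (c + h)) δ α f v
      = ∫⁻ v, (D ∩ closedBall 0 L).indicator (G (Icc c (c + h)) δ α f) v :=
        (lintegral_indicator hBm _).symm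
    _ = ENNReal.ofReal (μ ^ d) * ∫⁻ x, (D ∩ closedBall 0 L).indicator
          (G (Icc c (c + h)) δ α f) (phi e (μ • x)) := by
        rw [lint_phi e ((measurable_G hα hf).indicator hBm)]
        exact lint_smul hμ (((measurable_G hα hf).indicator hBm).comp (measurable_phi e))
    _ ≤ ENNReal.ofReal (μ ^ d) * ∫⁻ x, (D₁ ∩ closedBall 0 1).indicator (fun x =>
          ENNReal.ofReal h * ENNReal.ofReal ((Λ / δ) ^ d) *
            Av δ₁ (ta e c h Λ α) (fun _ => 0) 0 1 (tf e c h Λ f) x) x := by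
        gcongr with x
        by_cases hx : phi e (μ • x) ∈ D ∩ closedBall 0 L
        · have hx1 : x ∈ D₁ := hx
          have hx2 : x ∈ D₁ ∩ closedBall (0 : E d) 1 := ⟨hx1, hD₁1 hx1⟩
          rw [indicator_of_mem hx, indicator_of_mem hx2]
          exact G_le hcard hΛ hh hδ hα hf x
        · rw [indicator_of_notMem hx]
          exact zero_le
    _ = ENNReal.ofReal (μ ^ d) * (ENNReal.ofReal h * ENNReal.ofReal ((Λ / δ) ^ d) *
          ∫⁻ x in D₁ ∩ closedBall 0 1, Av δ₁ (ta e c h Λ α) (fun _ => 0) 0 1 (tf e c h Λ f) x) := by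
        rw [lintegral_indicator (hD₁m.inter isClosed_closedBall.measurableSet),
          lintegral_const_mul' _ _ (ENNReal.mul_ne_top ENNReal.ofReal_ne_top
            ENNReal.ofReal_ne_top)]
    _ ≤ ENNReal.ofReal (μ ^ d) * (ENNReal.ofReal h * ENNReal.ofReal ((Λ / δ) ^ d) *
          (C0 * ENNReal.ofReal (δ₁ ^ d) * (ENNReal.ofReal g *
            ENNReal.ofReal (1 + Real.log (1 / δ))) ^ 2 * (C2 * ∫⁻ y, f y) ^ q)) := by
        gcongr
        refine hmain.trans ?_
        rw [hfint]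
        gcongr
    _ = _ := by
        rw [ENNReal.mul_rpow_of_nonneg _ _ hq0.le]
        have e2 : ENNReal.ofReal ((Λ / δ) ^ d) * ENNReal.ofReal (δ₁ ^ d) =
            ENNReal.ofReal ((√d) ^ d) := by
          rw [← ENNReal.ofReal_mul (by positivity), ← mul_pow]
          congr 2
          rw [hδ₁]
          field_simp
        rw [← e2]
        ring

end Run7.h523.TW
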