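import Pool.Agent.Run7.h523.TW.Block

set_option autoImplicit false
set_option linter.unusedSectionVars false

/-!
# The estimate for one block with an arbitrary axis
-/

open MeasureTheory Set Metric
open scoped ENNReal

namespace Run7.h523.TW

/-- `1 + log (1/δ)` -/
noncomputable def Lg (δ : ℝ) : ℝ≥0∞ := ENNReal.ofReal (1 + Real.log (1 / δ))

theorem one_le_Lg {δ : ℝ} (hδ : 0 < δ) (hδ1 : δ ≤ 1) : 1 ≤ Lg δ := by
  unfold Lg
  rw [← ENNReal.ofReal_one]
  apply ENNReal.ofReal_le_ofReal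
  have : 0 ≤ Real.log (1 / δ) := Real.log_nonneg (by rw [le_div_iff₀ hδ]; linarith)
  linarith

theorem block_zero {κ : Type*} [Fintype κ] (hcard : Fintype.card κ = 0) {J : Set ℝ} {L R δ : ℝ}
    (D : Set (κ → ℝ)) (α : (κ → ℝ) → (κ → ℝ)) : EstAt J L R δ 1 1 D α := by
  intro f hf hf1 hfR
  have : IsEmpty κ := Fintype.card_eq_zero_iff.1 hcard
  have hvol : (volume : Measure (κ → ℝ)) univ = 1 := by
    rw [volume_pi, Measure.pi_of_empty]
    simp
  have hG : ∀ v, G J δ α f v ≤ ∫⁻ p, f p := by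
    intro v
    unfold G
    rw [Measure.volume_eq_prod, lintegral_prod_symm' _ hf]
    calc ∫⁻ t in J, ∫⁻ y in closedBall (0 : κ → ℝ) 1, f (α v + t • v + δ • y, t)
        ≤ ∫⁻ t, ∫⁻ y in closedBall (0 : κ → ℝ) 1, f (α v + t • v + δ • y, t) :=
          setLIntegral_le_lintegral _ _
      _ ≤ ∫⁻ t, ∫⁻ x : κ → ℝ, f (x, t) := by
          apply lintegral_mono
          intro t
          simp only
          refine (setLIntegral_le_lintegral _ _).trans (le_of_eq ?_)
          congr 1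
          ext y
          congr 2
          exact Subsingleton.elim _ _
  rw [ENNReal.rpow_one, one_mul]
  calc ∫⁻ v in D ∩ closedBall 0 L, G J δ α f v
      ≤ ∫⁻ v, G J δ α f v := setLIntegral_le_lintegral _ _
    _ ≤ ∫⁻ _v : κ → ℝ, ∫⁻ p, f p := lintegral_mono fun v => hG v
    _ = ∫⁻ p, f p := by rw [lintegral_const, hvol, mul_one]

theorem pow3 (k : ℕ) (hk : 1 ≤ k) : (1 / 3 : ℝ) ^ k ≤ 1 / ((k : ℝ) + 2) := by
  rw [one_div, inv_pow, one_div]
  apply inv_anti₀ (by positivity)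
  induction k, hk using Nat.le_induction with
  | base => norm_num
  | succ n hn ih =>
    rw [pow_succ]
    push_cast
    have : (1 : ℝ) ≤ n := by exact_mod_cast hn
    linarith

/-- The estimate for one block of any size. -/
theorem block {κ : Type*} [Fintype κ] {ρ h L : ℝ} (c R : ℝ) (hρ : 0 < ρ) (hh : 0 < h)
    (hL : 0 ≤ L) :
    ∃ θ : ℝ, 0 < θ ∧ θ ≤ 1 ∧ (1 / 3 : ℝ) ^ (Fintype.card κ) ≤ θ ∧ ∃ C : ℝ≥0∞, C ≠ ∞ ∧
      ∀ δ : ℝ, 0 < δ → δ ≤ 1 → ∀ (D : Set (κ → ℝ)) (α : (κ → ℝ) → (κ → ℝ)),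
      Measurable α → MeasurableSet D → LocP ρ (Icc c (c + h)) (D ∩ closedBall 0 L) α →
      EstAt (Icc c (c + h)) L R δ θ (C * Lg δ ^ (2 * Fintype.card κ)) D α := by
  rcases Nat.eq_zero_or_pos (Fintype.card κ) with h0 | h0
  · refine ⟨1, one_pos, le_rfl, by rw [h0, pow_zero], 1, ENNReal.one_ne_top, ?_⟩
    intro δ hδ hδ1 D α _ _ _
    rw [h0, mul_zero, pow_zero, one_mul]
    exact block_zero h0 D α
  · obtain ⟨C, hC, hest⟩ := block_pos (κ := κ) rfl h0 c R hρ hh hL
    have hc : (1 : ℝ) ≤ Fintype.card κ := by exact_mod_cast h0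
    refine ⟨1 / ((Fintype.card κ : ℝ) + 2), by positivity, ?_, pow3 _ h0, C, hC, ?_⟩
    · rw [div_le_one (by positivity)]
      linarith
    · intro δ hδ hδ1 D α hα hD hloc
      refine (hest δ hδ hδ1 D α hα hD hloc).mono ?_
      have := one_le_Lg hδ hδ1
      change C * Lg δ ^ 2 ≤ _
      gcongr
      omega

/-- The front condition with axis `(u, 1)`: the distances are measured after the shear
`(x, t) ↦ (x - t • u, t)`. -/
def LocU {κ : Type*} [Fintype κ] (ρ : ℝ) (J : Set ℝ) (D : Set (κ → ℝ)) (u : κ → ℝ)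
    (α : (κ → ℝ) → (κ → ℝ)) : Prop :=
  2 ≤ Fintype.card κ → ∀ v ∈ D, ∀ w ∈ D, nrm (v - u) = nrm (w - u) → nrm (v - w) ≤ ρ →
    ∀ s ∈ J, ∀ s' ∈ J, |s - s'| ≤ ρ →
    nrm ((α v + s • (v - u)) - (α w + s' • (w - u))) ≤ ρ →
    nrm (v - u) * |s - s'| ≤ nrm ((α v + s • (v - u)) - (α w + s' • (w - u)))

theorem blockU {κ : Type*} [Fintype κ] {ρ h L A : ℝ} (c R : ℝ) (hρ : 0 < ρ) (hh : 0 < h)
    (hL : 0 ≤ L) (hA : 0 ≤ A) :
    ∃ θ : ℝ, 0 < θ ∧ θ ≤ 1 ∧ (1 / 3 : ℝ) ^ (Fintype.card κ) ≤ θ ∧ ∃ C : ℝ≥0∞, C ≠ ∞ ∧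
      ∀ δ : ℝ, 0 < δ → δ ≤ 1 → ∀ (D : Set (κ → ℝ)) (α : (κ → ℝ) → (κ → ℝ)) (u : κ → ℝ),
      Measurable α → MeasurableSet D → ‖u‖ ≤ A →
      LocU ρ (Icc c (c + h)) (D ∩ closedBall 0 L) u α →
      EstAt (Icc c (c + h)) L R δ θ (C * Lg δ ^ (2 * Fintype.card κ)) D α := by
  obtain ⟨θ, hθ0, hθ1, hθ3, C, hC, hest⟩ := block (κ := κ) c (R + A * (|c| + h)) hρ hh
    (add_nonneg hL hA)
  refine ⟨θ, hθ0, hθ1, hθ3, C, hC, ?_⟩
  intro δ hδ hδ1 D α u hα hD hu hloc f hf hf1 hfR
  set J := Icc c (c + h) with hJ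
  have hJm : MeasurableSet J := measurableSet_Icc
  set D₁ : Set (κ → ℝ) := {v | v + u ∈ D ∩ closedBall 0 L} with hD₁
  have hBm : MeasurableSet (D ∩ closedBall (0 : κ → ℝ) L) :=
    hD.inter isClosed_closedBall.measurableSet
  have hD₁m : MeasurableSet D₁ := (measurable_add_const u) hBm
  set α₁ : (κ → ℝ) → (κ → ℝ) := fun v => α (v + u) with hα₁
  have hα₁m : Measurable α₁ := hα.comp (measurable_add_const u)
  set f₁ : (κ → ℝ) × ℝ → ℝ≥0∞ := fun p => J.indicator (fun t => f (p.1 + t • u, t)) p.2 with hf₁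
  have hf₁m : Measurable f₁ := by
    have e : f₁ = ({p : (κ → ℝ) × ℝ | p.2 ∈ J}).indicator (fun p => f (p.1 + p.2 • u, p.2)) := by
      ext p
      by_cases hp : p.2 ∈ J
      · rw [indicator_of_mem (by exact hp)]
        simp only [hf₁]
        rw [indicator_of_mem hp]
      · rw [indicator_of_notMem (by exact hp)]
        simp only [hf₁]
        rw [indicator_of_notMem hp]
    rw [e]
    exact Measurable.indicator (by fun_prop) (measurable_snd hJm)
  have hloc₁ : LocP ρ J (D₁ ∩ closedBall 0 (L + A)) α₁ := by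
    intro hcard v hv w hw h1 h2 s hs s' hs' h3 h4
    have e1 : ∀ x : κ → ℝ, x + u - u = x := fun x => add_sub_cancel_right x u
    have h5 := hloc hcard (v + u) hv.1 (w + u) hw.1 (by rw [e1, e1, h1])
      (by rw [add_sub_add_right_eq_sub]; exact h2) s hs s' hs' h3 (by rw [e1, e1]; exact h4)
    rwa [e1, e1] at h5
  have h1 := hest δ hδ hδ1 D₁ α₁ hα₁m hD₁m hloc₁ f₁ hf₁m (fun p => ?_) (fun p hp => ?_)
  · have hint : ∫⁻ p, f₁ p ≤ ∫⁻ p, f p := by
      rw [Measure.volume_eq_prod, lintegral_prod_symm' _ hf₁m, lintegral_prod_symm' _ hf]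
      apply lintegral_mono
      intro t
      by_cases ht : t ∈ J
      · have e : ∀ x : κ → ℝ, f₁ (x, t) = f (x + t • u, t) := by
          intro x
          simp only [hf₁]
          rw [indicator_of_mem ht]
        simp_rw [e]
        exact (lintegral_add_right_eq_self (fun x => f (x, t)) (t • u)).le
      · have e : ∀ x : κ → ℝ, f₁ (x, t) = 0 := by
          intro x
          simp only [hf₁]
          rw [indicator_of_notMem ht]
        simp_rw [e]
        simp
    have hG : ∀ v, G J δ α f (v + u) = G J δ α₁ f₁ v := by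
      intro v
      unfold G
      apply setLIntegral_congr_fun hJm
      intro t ht
      simp only [hf₁, hα₁]
      congr 1
      ext y
      rw [indicator_of_mem ht]
      congr 2
      rw [smul_add]
      abel
    calc ∫⁻ v in D ∩ closedBall 0 L, G J δ α f v
        = ∫⁻ v, (D ∩ closedBall 0 L).indicator (G J δ α f) v := (lintegral_indicator hBm _).symm
      _ = ∫⁻ v, (D ∩ closedBall 0 L).indicator (G J δ α f) (v + u) :=
          (lintegral_add_right_eq_self _ u).symm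
      _ ≤ ∫⁻ v, (D₁ ∩ closedBall 0 (L + A)).indicator (G J δ α₁ f₁) v := by
          apply lintegral_mono
          intro v
          simp only
          by_cases hv : v + u ∈ D ∩ closedBall 0 L
          · have hv2 : v ∈ D₁ ∩ closedBall (0 : κ → ℝ) (L + A) := by
              refine ⟨hv, ?_⟩
              rw [mem_closedBall_zero_iff]
              have h2 := mem_closedBall_zero_iff.1 hv.2
              have h3 := norm_sub_le (v + u) u
              rw [add_sub_cancel_right] at h3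
              linarith
            rw [indicator_of_mem hv, indicator_of_mem hv2, hG]
          · rw [indicator_of_notMem hv]
            exact zero_le
      _ = ∫⁻ v in D₁ ∩ closedBall 0 (L + A), G J δ α₁ f₁ v :=
          lintegral_indicator (hD₁m.inter isClosed_closedBall.measurableSet) _
      _ ≤ C * Lg δ ^ (2 * Fintype.card κ) * (∫⁻ p, f₁ p) ^ θ := h1
      _ ≤ _ := by gcongr
  · simp only [hf₁]
    by_cases hp : p.2 ∈ J
    · rw [indicator_of_mem hp]; exact hf1 _
    · rw [indicator_of_notMem hp]; exact zero_le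
  · simp only [hf₁] at hp
    by_cases hpJ : p.2 ∈ J
    · rw [indicator_of_mem hpJ] at hp
      have h2 : ‖p.1 + p.2 • u‖ ≤ R := hfR _ hp
      have h3 : |p.2| ≤ |c| + h := by
        rw [abs_le]
        have h4 := neg_abs_le c
        have h5 := le_abs_self c
        exact ⟨by linarith [hpJ.1], by linarith [hpJ.2]⟩
      have h4 : ‖p.2 • u‖ ≤ A * (|c| + h) := by
        rw [norm_smul, Real.norm_eq_abs, mul_comm]
        gcongr
      have h5 := norm_sub_le (p.1 + p.2 • u) (p.2 • u)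
      rw [add_sub_cancel_right] at h5
      linarith
    · rw [indicator_of_notMem hpJ] at hp
      exact absurd rfl hp

end Run7.h523.TW
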