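import Pool.Agent.Run7.h523.TW.Ind
import Pool.Agent.Run7.h523.WF.Haus

set_option autoImplicit false
set_option linter.unusedSectionVars false

/-!
# From the single-scale estimate to the size of Kakeya sets
-/

open MeasureTheory Set Metric Filter Topology
open scoped ENNReal NNReal

namespace Run7.h523.TW

open Run7.h523.WF (small_cover weights asym)

variable {ι : Type} [Fintype ι]

theorem markov {J : Set ℝ} {L R δ θ : ℝ} {K : ℝ≥0∞} {D : Set (ι → ℝ)} {a : (ι → ℝ) → (ι → ℝ)}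
    (hest : EstAt J L R δ θ K D a) (ha : Measurable a)
    {f : (ι → ℝ) × ℝ → ℝ≥0∞} (hf : Measurable f) (hf1 : ∀ p, f p ≤ 1)
    (hfR : ∀ p, f p ≠ 0 → ‖p.1‖ ≤ R) {S : Set (ι → ℝ)} (hSD : S ⊆ D) (hSL : S ⊆ closedBall 0 L)
    {lam : ℝ≥0∞} (hlam : ∀ v ∈ S, lam ≤ G J δ a f v) :
    lam * volume S ≤ K * (∫⁻ p, f p) ^ θ := by
  refine le_trans ?_ (hest f hf hf1 hfR)
  have h1 := mul_meas_ge_le_lintegral (μ := volume.restrict (D ∩ closedBall 0 L))
    (measurable_G (J := J) (δ := δ) ha hf) lam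
  refine le_trans ?_ h1
  refine mul_le_mul' le_rfl ?_
  have hm : MeasurableSet {v | lam ≤ G J δ a f v} := measurableSet_le measurable_const
    (measurable_G ha hf)
  rw [Measure.restrict_apply hm]
  exact measure_mono fun v hv => ⟨hlam v hv, hSD hv, hSL hv⟩

/-- Lower bound for `G` when the tube over the heights in `T` is filled. -/
theorem G_ge {J T : Set ℝ} {δ : ℝ} {a : (ι → ℝ) → (ι → ℝ)} {f : (ι → ℝ) × ℝ → ℝ≥0∞}
    (hf : Measurable f) (hJ : MeasurableSet J) {v : ι → ℝ} (hTJ : T ⊆ J)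
    (hT : ∀ t ∈ T, ∀ y : ι → ℝ, ‖y‖ ≤ 1 → f (a v + t • v + δ • y, t) = 1) :
    volume T ≤ G J δ a f v := by
  set H : ℝ → ℝ≥0∞ := fun t => ∫⁻ y in closedBall (0 : ι → ℝ) 1, f (a v + t • v + δ • y, t) with hH
  have hHm : Measurable H := by
    apply Measurable.lintegral_prod_right' (f := fun q : ℝ × (ι → ℝ) =>
      f (a v + q.1 • v + δ • q.2, q.1))
    fun_prop
  have hvol : 1 ≤ volume (closedBall (0 : ι → ℝ) 1) := by
    rw [Real.volume_pi_closedBall _ zero_le_one, ← ENNReal.ofReal_one]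
    apply ENNReal.ofReal_le_ofReal
    exact one_le_pow₀ (by norm_num)
  have h1 : ∀ t ∈ T, 1 ≤ H t := by
    intro t ht
    have : H t = ∫⁻ y in closedBall (0 : ι → ℝ) 1, 1 := by
      apply setLIntegral_congr_fun isClosed_closedBall.measurableSet
      intro y hy
      exact hT t ht y (mem_closedBall_zero_iff.1 hy)
    rw [this, setLIntegral_const, one_mul]
    exact hvol
  have h2 := mul_meas_ge_le_lintegral (μ := volume.restrict J) hHm 1
  rw [one_mul] at h2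
  refine le_trans ?_ h2
  have hm : MeasurableSet {t | 1 ≤ H t} := measurableSet_le measurable_const hHm
  rw [Measure.restrict_apply hm]
  exact measure_mono fun t ht => ⟨h1 t ht, hTJ ht⟩

/-- Positivity of the measure of the neighbourhoods. -/
theorem core_nbhd {J : Set ℝ} {L R θ : ℝ} {C : ℝ≥0∞} {Q : ℕ} {D : Set (ι → ℝ)}
    {a : (ι → ℝ) → (ι → ℝ)} (hJ : MeasurableSet J) (hθ : 0 < θ) (hC : C ≠ ∞)
    (hest : ∀ δ : ℝ, 0 < δ → δ ≤ 1 → EstAt J L (R + 3) δ θ (C * Lg δ ^ Q) D a)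
    (ha : Measurable a)
    {S : Set (ι → ℝ)} (hSD : S ⊆ D) (hSL : S ⊆ closedBall 0 L) (hS : volume S ≠ 0)
    {K : Set ((ι → ℝ) × ℝ)} (hKR : ∀ p ∈ K, ‖p.1‖ ≤ R) {lam : ℝ} (hlam : 0 < lam)
    (hK : ∀ v ∈ S, ENNReal.ofReal lam ≤ volume {t : ℝ | t ∈ J ∧ (a v + t • v, t) ∈ K}) :
    ∃ c : ℝ, 0 < c ∧ ∀ δ : ℝ, 0 < δ → δ ≤ 1 →
      ENNReal.ofReal (c / (1 + Real.log (1 / δ)) ^ ((Q : ℝ) / θ)) ≤ volume (thickening δ K) := by
  have hS1 : 0 < min (volume S) 1 := lt_min (pos_iff_ne_zero.2 hS) one_pos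
  have hSt : min (volume S) 1 ≠ ∞ := ((min_le_right _ _).trans_lt ENNReal.one_lt_top).ne
  set σ : ℝ := (min (volume S) 1).toReal with hσ
  have hσ0 : 0 < σ := ENNReal.toReal_pos hS1.ne' hSt
  have hσS : ENNReal.ofReal σ ≤ volume S := by
    rw [hσ, ENNReal.ofReal_toReal hSt]
    exact min_le_left _ _
  set C' : ℝ := C.toReal + 1 with hC'
  have hC'0 : 0 < C' := by positivity
  have hCC' : C ≤ ENNReal.ofReal C' := by
    rw [hC', ENNReal.ofReal_add ENNReal.toReal_nonneg zero_le_one, ENNReal.ofReal_toReal hC]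
    exact le_self_add
  refine ⟨(lam * σ / (C' * 2 ^ Q)) ^ (1 / θ), by positivity, ?_⟩
  intro δ hδ hδ1
  have hlog : 0 ≤ Real.log (1 / δ) := Real.log_nonneg (by rw [le_div_iff₀ hδ]; linarith)
  set W : Set ((ι → ℝ) × ℝ) := thickening δ K with hW
  have hWo : IsOpen W := isOpen_thickening
  set f : (ι → ℝ) × ℝ → ℝ≥0∞ := W.indicator (fun _ => 1) with hf
  have hfm : Measurable f := measurable_const.indicator hWo.measurableSet
  have hfW : ∫⁻ p, f p = volume W := by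
    rw [hf, lintegral_indicator hWo.measurableSet, setLIntegral_const, one_mul]
  have hf1 : ∀ p, f p ≤ 1 := fun p => indicator_le_self' (fun _ _ => zero_le) p |>.trans le_rfl
  have hfR : ∀ p, f p ≠ 0 → ‖p.1‖ ≤ R + 3 := by
    intro p hp
    have hpW : p ∈ W := by
      by_contra h
      exact hp (indicator_of_notMem h _)
    obtain ⟨z, hz, hd⟩ := mem_thickening_iff.1 hpW
    have h1 : dist p.1 z.1 ≤ dist p z := le_max_left _ _
    have h2 : ‖p.1‖ ≤ ‖z.1‖ + dist p.1 z.1 := by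
      rw [dist_eq_norm]
      have := norm_add_le z.1 (p.1 - z.1)
      rwa [add_sub_cancel] at this
    have := hKR z hz
    linarith
  have hG : ∀ v ∈ S, ENNReal.ofReal lam ≤ G J (δ / 2) a f v := by
    intro v hv
    refine (hK v hv).trans (G_ge hfm hJ (fun t ht => ht.1) ?_)
    intro t ht y hy
    rw [hf, indicator_of_mem]
    rw [hW, mem_thickening_iff]
    refine ⟨_, ht.2, ?_⟩
    rw [Prod.dist_eq]
    simp only [dist_self]
    rw [dist_eq_norm, add_sub_cancel_left, norm_smul, Real.norm_eq_abs, abs_of_pos (by positivity)]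
    refine max_lt ?_ hδ
    nlinarith
  have hmk := markov (hest (δ / 2) (by positivity) (by linarith)) ha hfm hf1 hfR hSD hSL hG
  rw [hfW] at hmk
  have hLg : Lg (δ / 2) ≤ ENNReal.ofReal (2 * (1 + Real.log (1 / δ))) := by
    unfold Lg
    apply ENNReal.ofReal_le_ofReal
    have e1 : (1 : ℝ) / (δ / 2) = 2 * (1 / δ) := by field_simp
    rw [e1, Real.log_mul (by norm_num) (by positivity)]
    have : Real.log 2 ≤ 1 := by
      have := Real.log_two_lt_d9
      linarith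
    linarith
  set Λ : ℝ := 1 + Real.log (1 / δ) with hΛ
  have hΛ1 : 1 ≤ Λ := by linarith
  have h1 : ENNReal.ofReal (lam * σ) ≤ ENNReal.ofReal (C' * 2 ^ Q * Λ ^ Q) * volume W ^ θ := by
    calc ENNReal.ofReal (lam * σ) = ENNReal.ofReal lam * ENNReal.ofReal σ :=
          ENNReal.ofReal_mul hlam.le
      _ ≤ ENNReal.ofReal lam * volume S := by gcongr
      _ ≤ C * Lg (δ / 2) ^ Q * volume W ^ θ := hmk
      _ ≤ ENNReal.ofReal C' * ENNReal.ofReal (2 * Λ) ^ Q * volume W ^ θ := by gcongr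
      _ = _ := by
          rw [← ENNReal.ofReal_pow (by positivity), ← ENNReal.ofReal_mul (by positivity), mul_pow,
            mul_assoc]
  have h2 : ENNReal.ofReal (lam * σ / (C' * 2 ^ Q * Λ ^ Q)) ≤ volume W ^ θ := by
    rw [div_eq_mul_inv, mul_comm, ENNReal.ofReal_mul (by positivity)]
    calc _ ≤ ENNReal.ofReal (C' * 2 ^ Q * Λ ^ Q)⁻¹ *
          (ENNReal.ofReal (C' * 2 ^ Q * Λ ^ Q) * volume W ^ θ) := by gcongr
      _ = _ := by
          rw [← mul_assoc, ← ENNReal.ofReal_mul (by positivity), inv_mul_cancel₀ (by positivity),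
            ENNReal.ofReal_one, one_mul]
  have h3 := ENNReal.rpow_le_rpow h2 (by positivity : 0 ≤ 1 / θ)
  rw [← ENNReal.rpow_mul, mul_one_div_cancel hθ.ne', ENNReal.rpow_one,
    ENNReal.ofReal_rpow_of_nonneg (by positivity) (by positivity)] at h3
  refine le_trans (le_of_eq ?_) h3
  have e : Λ ^ ((Q : ℝ) / θ) = (Λ ^ Q) ^ (1 / θ) := by
    rw [← Real.rpow_natCast, ← Real.rpow_mul (by positivity), mul_one_div]
  rw [e, ← Real.div_rpow (by positivity) (by positivity), div_div]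

theorem vol_ball3 (y : (ι → ℝ) × ℝ) {r : ℝ} (hr : 0 < r) :
    volume (ball y r) = ENNReal.ofReal ((2 * r) ^ (Fintype.card ι + 1)) := by
  have h1 : ball y r = ball y.1 r ×ˢ ball y.2 r := by
    rw [ball_prod_same]
  rw [h1, Measure.volume_eq_prod, Measure.prod_prod, Real.volume_pi_ball _ hr, Real.volume_ball,
    ← ENNReal.ofReal_mul (by positivity), pow_succ]

/-- Hausdorff dimension. -/
theorem core_haus {J : Set ℝ} {L R θ : ℝ} {C : ℝ≥0∞} {Q : ℕ} {D : Set (ι → ℝ)}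
    {a : (ι → ℝ) → (ι → ℝ)} (hJ : MeasurableSet J) (hθ : 0 < θ) (hC : C ≠ ∞)
    (hest : ∀ δ : ℝ, 0 < δ → δ ≤ 1 → EstAt J L (R + 3) δ θ (C * Lg δ ^ Q) D a)
    (ha : Measurable a)
    {S : Set (ι → ℝ)} (hSD : S ⊆ D) (hSL : S ⊆ closedBall 0 L) (hS : volume S ≠ 0)
    {K : Set ((ι → ℝ) × ℝ)} (hKR : ∀ p ∈ K, ‖p.1‖ ≤ R) {lam : ℝ} (hlam : 0 < lam)
    (hK : ∀ v ∈ S, ENNReal.ofReal lam ≤ volume {t : ℝ | t ∈ J ∧ (a v + t • v, t) ∈ K}) :
    ((Fintype.card ι + 1 : ℕ) : ℝ≥0∞) ≤ dimH K := by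
  classical
  by_contra hcon
  rw [not_le] at hcon
  obtain ⟨s', hs1, hs2⟩ := ENNReal.lt_iff_exists_nnreal_btwn.1 hcon
  have hz : μH[(s' : ℝ)] K = 0 := hausdorffMeasure_of_dimH_lt hs1
  set n : ℕ := Fintype.card ι with hn
  set s : ℝ := (s' : ℝ) with hs
  have hs0 : 0 < s := by
    have : (0 : ℝ≥0∞) < (s' : ℝ≥0∞) := lt_of_le_of_lt zero_le hs1
    exact_mod_cast this
  have hsd : s < (n : ℝ) + 1 := by
    have : (s' : ℝ≥0∞) < (((n + 1 : ℕ) : ℝ≥0) : ℝ≥0∞) := by simpa using hs2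
    have h : s' < ((n + 1 : ℕ) : ℝ≥0) := by exact_mod_cast this
    have h' : (s' : ℝ) < (((n + 1 : ℕ) : ℝ≥0) : ℝ) := by exact_mod_cast h
    simpa using h'
  have hS1 : 0 < min (volume S) 1 := lt_min (pos_iff_ne_zero.2 hS) one_pos
  have hSt : min (volume S) 1 ≠ ∞ := ((min_le_right _ _).trans_lt ENNReal.one_lt_top).ne
  set σ : ℝ := (min (volume S) 1).toReal with hσ
  have hσ0 : 0 < σ := ENNReal.toReal_pos hS1.ne' hSt
  have hσS : ENNReal.ofReal σ ≤ volume S := by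
    rw [hσ, ENNReal.ofReal_toReal hSt]
    exact min_le_left _ _
  set C' : ℝ := C.toReal + 1 with hC'
  have hC'0 : 0 < C' := by positivity
  have hCC' : C ≤ ENNReal.ofReal C' := by
    rw [hC', ENNReal.ofReal_add ENNReal.toReal_nonneg zero_le_one, ENNReal.ofReal_toReal hC]
    exact le_self_add
  obtain ⟨c₀, hc₀, hw⟩ := weights
  set θ₀ : ℝ := (1 / 2 : ℝ) ^ ((n : ℝ) + 1 - s) with hθ₀
  have hθ₀0 : 0 < θ₀ := by positivity
  have hθ₀1 : θ₀ < 1 := Real.rpow_lt_one (by norm_num) (by norm_num) (by linarith)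
  set ϑ : ℝ := θ₀ ^ θ with hϑ
  have hϑ0 : 0 < ϑ := by positivity
  have hϑ1 : ϑ < 1 := Real.rpow_lt_one hθ₀0.le hθ₀1 hθ
  set B : ℝ := 6 ^ (n + 1) * 2 ^ s with hB
  have hB0 : 0 < B := by positivity
  have hev := asym (C := C' * B ^ θ) (c := lam * σ * c₀ ^ 2) (by positivity) hϑ0 hϑ1 (Q + 4)
  obtain ⟨k₀, hk₀⟩ := eventually_atTop.1 hev
  obtain ⟨t, r, hKt, hr0, hrt, hrs⟩ := small_cover (K := K) hs0 hz
    (ε := ((1 / 2 : ℝ) ^ k₀) ^ s / 2) (by positivity)
  have hrs' : ∑' i, ENNReal.ofReal (r i ^ s) ≤ ENNReal.ofReal (((1 / 2 : ℝ) ^ k₀) ^ s) := by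
    refine hrs.trans (le_of_eq ?_)
    congr 1
    ring
  have hr1 : ∀ i, r i ≤ (1 / 2 : ℝ) ^ k₀ := by
    intro i
    have h1 := (ENNReal.le_tsum (f := fun i => ENNReal.ofReal (r i ^ s)) i).trans hrs'
    rw [ENNReal.ofReal_le_ofReal_iff (by positivity)] at h1
    exact (Real.rpow_le_rpow_iff (hr0 i).le (by positivity) hs0).1 h1
  have hone : ((1 / 2 : ℝ) ^ k₀) ^ s ≤ 1 := by
    apply Real.rpow_le_one (by positivity) (pow_le_one₀ (by norm_num) (by norm_num)) hs0.le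
  have hrs1 : ∑' i, ENNReal.ofReal (r i ^ s) ≤ 1 := by
    refine hrs'.trans ?_
    rw [← ENNReal.ofReal_one]
    exact ENNReal.ofReal_le_ofReal hone
  set I : ℕ → Set ℕ := fun k => {i | (1 / 2 : ℝ) ^ (k + 1) < r i ∧ r i ≤ (1 / 2 : ℝ) ^ k} with hI
  have hIex : ∀ i, ∃ k, i ∈ I k := fun i =>
    exists_nat_pow_near_of_lt_one (hr0 i) ((hr1 i).trans
      (pow_le_one₀ (by norm_num) (by norm_num))) (by norm_num) (by norm_num)
  have hIk : ∀ k i, i ∈ I k → k₀ ≤ k := by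
    intro k i hi
    by_contra hc
    rw [not_le] at hc
    have h1 : (1 / 2 : ℝ) ^ k₀ ≤ (1 / 2 : ℝ) ^ (k + 1) :=
      pow_le_pow_of_le_one (by norm_num) (by norm_num) hc
    exact absurd ((hr1 i).trans h1) (not_le.2 hi.1)
  set JJ : ℕ → (ι → ℝ) → Set ℝ := fun k v =>
    {τ | τ ∈ J ∧ ‖a v + τ • v‖ ≤ R ∧ ∃ i ∈ I k, (a v + τ • v, τ) ∈ t i} with hJJ
  have hJcov : ∀ v, {τ : ℝ | τ ∈ J ∧ (a v + τ • v, τ) ∈ K} ⊆ ⋃ k, JJ k v := by
    rintro v τ ⟨h1, h2⟩
    obtain ⟨i, hi⟩ := mem_iUnion.1 (hKt h2)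
    obtain ⟨k, hk⟩ := hIex i
    exact mem_iUnion.2 ⟨k, h1, hKR _ h2, i, hk, hi⟩
  set w : ℕ → ℝ := fun k => c₀ / ((k : ℝ) + 1) ^ 2 with hwdef
  have hw0 : ∀ k, 0 < w k := fun k => by simp only [hwdef]; positivity
  set SS : ℕ → Set (ι → ℝ) := fun k => {v | v ∈ S ∧ ENNReal.ofReal (lam * w k) ≤ volume (JJ k v)}
    with hSS
  have hSScov : S ⊆ ⋃ k, SS k := by
    intro v hv
    by_contra hc
    rw [mem_iUnion, not_exists] at hc
    have h1 : ∀ k, volume (JJ k v) < ENNReal.ofReal (lam * w k) := by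
      intro k
      by_contra h
      exact hc k ⟨hv, not_lt.1 h⟩
    have h2 : ENNReal.ofReal lam ≤ ∑' k, ENNReal.ofReal (lam * w k) :=
      (hK v hv).trans ((measure_mono (hJcov v)).trans ((measure_iUnion_le _).trans
        (ENNReal.tsum_le_tsum fun k => (h1 k).le)))
    have h3 : ∑' k, ENNReal.ofReal (lam * w k) < ENNReal.ofReal lam := by
      have : ∀ k, ENNReal.ofReal (lam * w k) = ENNReal.ofReal lam * ENNReal.ofReal (w k) :=
        fun k => ENNReal.ofReal_mul hlam.le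
      simp_rw [this]
      rw [ENNReal.tsum_mul_left]
      calc ENNReal.ofReal lam * ∑' k, ENNReal.ofReal (w k) < ENNReal.ofReal lam * 1 :=
            (ENNReal.mul_lt_mul_iff_right (ENNReal.ofReal_pos.2 hlam).ne'
              ENNReal.ofReal_ne_top).2 hw
        _ = _ := mul_one _
    exact absurd h2 (not_le.2 h3)
  obtain ⟨k, hk⟩ : ∃ k, ENNReal.ofReal (σ * w k) ≤ volume (SS k) := by
    by_contra hc
    rw [not_exists] at hc
    have h2 : ENNReal.ofReal σ ≤ ∑' k, ENNReal.ofReal (σ * w k) :=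
      hσS.trans ((measure_mono hSScov).trans ((measure_iUnion_le _).trans
        (ENNReal.tsum_le_tsum fun k => (not_le.1 (hc k)).le)))
    have h3 : ∑' k, ENNReal.ofReal (σ * w k) < ENNReal.ofReal σ := by
      have : ∀ k, ENNReal.ofReal (σ * w k) = ENNReal.ofReal σ * ENNReal.ofReal (w k) :=
        fun k => ENNReal.ofReal_mul hσ0.le
      simp_rw [this]
      rw [ENNReal.tsum_mul_left]
      calc ENNReal.ofReal σ * ∑' k, ENNReal.ofReal (w k) < ENNReal.ofReal σ * 1 :=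
            (ENNReal.mul_lt_mul_iff_right (ENNReal.ofReal_pos.2 hσ0).ne'
              ENNReal.ofReal_ne_top).2 hw
        _ = _ := mul_one _
    exact absurd h2 (not_le.2 h3)
  have hkk : k₀ ≤ k := by
    by_contra hc
    have h1 : ∀ v, JJ k v = ∅ := by
      intro v
      rw [Set.eq_empty_iff_forall_notMem]
      rintro τ ⟨_, _, i, hi, _⟩
      exact hc (hIk k i hi)
    have h2 : SS k = ∅ := by
      rw [Set.eq_empty_iff_forall_notMem]
      rintro v ⟨_, h3⟩
      rw [h1, measure_empty] at h3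
      have : 0 < ENNReal.ofReal (lam * w k) := ENNReal.ofReal_pos.2 (mul_pos hlam (hw0 k))
      exact absurd h3 (not_le.2 this)
    rw [h2, measure_empty] at hk
    have : 0 < ENNReal.ofReal (σ * w k) := ENNReal.ofReal_pos.2 (mul_pos hσ0 (hw0 k))
    exact absurd hk (not_le.2 this)
  have hkA := hk₀ k hkk
  set δ : ℝ := (1 / 2 : ℝ) ^ k with hδ
  have hδ0 : 0 < δ := by positivity
  have hδ1 : δ ≤ 1 := pow_le_one₀ (by norm_num) (by norm_num)
  set Bl : ℕ → Set ((ι → ℝ) × ℝ) := fun i =>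
    if h : i ∈ I k ∧ (t i).Nonempty then ball h.2.some (3 * δ) else ∅ with hBl
  have hBlo : ∀ i, IsOpen (Bl i) := by
    intro i
    by_cases hcond : i ∈ I k ∧ (t i).Nonempty
    · simp only [hBl, dif_pos hcond]
      exact isOpen_ball
    · simp only [hBl, dif_neg hcond]
      exact isOpen_empty
  set W : Set ((ι → ℝ) × ℝ) := (⋃ i, Bl i) ∩ {p | ‖p.1‖ < R + 3} with hW
  have hWm : MeasurableSet W :=
    ((isOpen_iUnion hBlo).inter (isOpen_lt (by fun_prop) continuous_const)).measurableSet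
  set f : (ι → ℝ) × ℝ → ℝ≥0∞ := W.indicator (fun _ => 1) with hf
  have hfm : Measurable f := measurable_const.indicator hWm
  have hfW : ∫⁻ p, f p = volume W := by
    rw [hf, lintegral_indicator hWm, setLIntegral_const, one_mul]
  have hf1 : ∀ p, f p ≤ 1 := fun p => indicator_le_self' (fun _ _ => zero_le) p |>.trans le_rfl
  have hfR : ∀ p, f p ≠ 0 → ‖p.1‖ ≤ R + 3 := by
    intro p hp
    have hpW : p ∈ W := by
      by_contra h
      exact hp (indicator_of_notMem h _)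
    exact hpW.2.le
  have hG : ∀ v ∈ SS k, ENNReal.ofReal (lam * w k) ≤ G J δ a f v := by
    intro v hv
    refine hv.2.trans (G_ge hfm hJ (fun τ hτ => hτ.1) ?_)
    rintro τ ⟨_, hτR, i, hi, hti⟩ y hy
    rw [hf, indicator_of_mem]
    have hcond : i ∈ I k ∧ (t i).Nonempty := ⟨hi, ⟨_, hti⟩⟩
    have hδy : ‖δ • y‖ ≤ δ := by
      rw [norm_smul, Real.norm_eq_abs, abs_of_pos hδ0]
      nlinarith
    refine ⟨mem_iUnion.2 ⟨i, ?_⟩, ?_⟩
    · simp only [hBl, dif_pos hcond]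
      set z := hcond.2.some with hz
      have hzt : z ∈ t i := hcond.2.some_mem
      rw [mem_ball]
      have h4 : dist (a v + τ • v, τ) z ≤ r i := hrt i _ hti z hzt
      have h5 : dist (a v + τ • v + δ • y, τ) (a v + τ • v, τ) ≤ δ := by
        rw [Prod.dist_eq]
        simp only [dist_self]
        rw [dist_eq_norm, add_sub_cancel_left]
        exact max_le hδy hδ0.le
      calc dist (a v + τ • v + δ • y, τ) z
          ≤ dist (a v + τ • v + δ • y, τ) (a v + τ • v, τ) + dist (a v + τ • v, τ) z :=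
            dist_triangle _ _ _
        _ ≤ δ + r i := add_le_add h5 h4
        _ ≤ δ + δ := by linarith [hi.2]
        _ < 3 * δ := by linarith
    · change ‖a v + τ • v + δ • y‖ < R + 3
      have := norm_add_le (a v + τ • v) (δ • y)
      linarith
  have hmk := markov (hest δ hδ0 hδ1) ha hfm hf1 hfR (fun v hv => hSD hv.1)
    (fun v hv => hSL hv.1) hG
  rw [hfW] at hmk
  have hBlv : ∀ i, volume (Bl i) ≤ ENNReal.ofReal (B * δ ^ ((n : ℝ) + 1 - s)) *
      ENNReal.ofReal (r i ^ s) := by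
    intro i
    by_cases hcond : i ∈ I k ∧ (t i).Nonempty
    · simp only [hBl, dif_pos hcond]
      rw [vol_ball3 _ (by positivity), ← ENNReal.ofReal_mul (by positivity)]
      apply ENNReal.ofReal_le_ofReal
      have h1 : δ ≤ 2 * r i := by
        have h2 := hcond.1.1
        rw [pow_succ] at h2
        linarith
      have h2 : δ ^ s ≤ 2 ^ s * r i ^ s := by
        rw [← Real.mul_rpow (by norm_num) (hr0 i).le]
        exact Real.rpow_le_rpow hδ0.le h1 hs0.le
      have h3 : δ ^ (n + 1) = δ ^ ((n : ℝ) + 1 - s) * δ ^ s := by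
        rw [← Real.rpow_add hδ0, ← Real.rpow_natCast]
        congr 1
        push_cast
        ring
      have e1 : 2 * (3 * δ) = 6 * δ := by ring
      rw [e1, mul_pow, h3, hB]
      calc 6 ^ (n + 1) * (δ ^ ((n : ℝ) + 1 - s) * δ ^ s)
          ≤ 6 ^ (n + 1) * (δ ^ ((n : ℝ) + 1 - s) * (2 ^ s * r i ^ s)) := by gcongr
        _ = _ := by ring
    · simp only [hBl, dif_neg hcond, measure_empty]
      exact zero_le
  have hupper : volume W ≤ ENNReal.ofReal (B * δ ^ ((n : ℝ) + 1 - s)) := by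
    refine (measure_mono inter_subset_left).trans ((measure_iUnion_le _).trans ?_)
    refine (ENNReal.tsum_le_tsum hBlv).trans ?_
    rw [ENNReal.tsum_mul_left]
    calc _ ≤ ENNReal.ofReal (B * δ ^ ((n : ℝ) + 1 - s)) * 1 := by gcongr
      _ = _ := mul_one _
  have hlog : Real.log (1 / δ) = k * Real.log 2 := by
    rw [hδ, one_div, ← inv_pow, Real.log_pow]
    norm_num
  have hLg : Lg δ ≤ ENNReal.ofReal ((k : ℝ) + 1) := by
    unfold Lg
    apply ENNReal.ofReal_le_ofReal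
    rw [hlog]
    have h1 : Real.log 2 ≤ 1 := by
      have := Real.log_two_lt_d9
      linarith
    have h2 : (0 : ℝ) ≤ k := Nat.cast_nonneg _
    nlinarith
  have hδθ : δ ^ ((n : ℝ) + 1 - s) = θ₀ ^ k := by
    rw [hδ, hθ₀, ← Real.rpow_natCast, ← Real.rpow_natCast, ← Real.rpow_mul (by norm_num),
      ← Real.rpow_mul (by norm_num), mul_comm]
  have hfin : ENNReal.ofReal (lam * w k * (σ * w k)) ≤
      ENNReal.ofReal (C' * ((k : ℝ) + 1) ^ Q * (B ^ θ * ϑ ^ k)) := by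
    calc ENNReal.ofReal (lam * w k * (σ * w k))
        = ENNReal.ofReal (lam * w k) * ENNReal.ofReal (σ * w k) :=
          ENNReal.ofReal_mul (mul_pos hlam (hw0 k)).le
      _ ≤ ENNReal.ofReal (lam * w k) * volume (SS k) := by gcongr
      _ ≤ C * Lg δ ^ Q * volume W ^ θ := hmk
      _ ≤ ENNReal.ofReal C' * ENNReal.ofReal ((k : ℝ) + 1) ^ Q *
            ENNReal.ofReal (B * δ ^ ((n : ℝ) + 1 - s)) ^ θ := by gcongr
      _ = _ := by
          rw [hδθ, ← ENNReal.ofReal_pow (by positivity), ENNReal.ofReal_rpow_of_nonneg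
            (by positivity) hθ.le, ← ENNReal.ofReal_mul (by positivity),
            ← ENNReal.ofReal_mul (by positivity), Real.mul_rpow (by positivity) (by positivity)]
          congr 3
          rw [hϑ, ← Real.rpow_natCast, ← Real.rpow_natCast, ← Real.rpow_mul hθ₀0.le,
            ← Real.rpow_mul hθ₀0.le, mul_comm]
  rw [ENNReal.ofReal_le_ofReal_iff (by positivity)] at hfin
  have e1 : lam * w k * (σ * w k) = lam * σ * c₀ ^ 2 / ((k : ℝ) + 1) ^ 4 := by
    simp only [hwdef]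
    field_simp
  rw [e1, div_le_iff₀ (by positivity)] at hfin
  have e2 : C' * ((k : ℝ) + 1) ^ Q * (B ^ θ * ϑ ^ k) * ((k : ℝ) + 1) ^ 4 =
      C' * B ^ θ * (((k : ℝ) + 1) ^ (Q + 4) * ϑ ^ k) := by
    rw [pow_add]
    ring
  rw [e2] at hfin
  exact absurd hfin (not_le.2 hkA)

end Run7.h523.TW
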