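import Mathlib

set_option autoImplicit false

/-!
# Single-scale Kakeya estimates and their extension to triangular families

Lines in `(ι → ℝ) × ℝ` are `{(a v + t • v, t)}`, `v` the slope.  `EstAt` bounds the integral over the
slopes in `D ∩ [-L, L]^ι` of the averages over the `δ`-tubes by a power of the integral.
-/

open MeasureTheory Set Metric
open scoped ENNReal

namespace Run7.h523.TW

/-- (Unnormalised) average over the `δ`-tube of slope `v` and heights in `J`. -/
noncomputable def G {ι : Type*} [Fintype ι] (J : Set ℝ) (δ : ℝ) (a : (ι → ℝ) → (ι → ℝ))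
    (f : (ι → ℝ) × ℝ → ℝ≥0∞) (v : ι → ℝ) : ℝ≥0∞ :=
  ∫⁻ t in J, ∫⁻ y in closedBall (0 : ι → ℝ) 1, f (a v + t • v + δ • y, t)

/-- The estimate at the scale `δ`. -/
def EstAt {ι : Type*} [Fintype ι] (J : Set ℝ) (L R δ θ : ℝ) (K : ℝ≥0∞) (D : Set (ι → ℝ))
    (a : (ι → ℝ) → (ι → ℝ)) : Prop :=
  ∀ f : (ι → ℝ) × ℝ → ℝ≥0∞, Measurable f → (∀ p, f p ≤ 1) → (∀ p, f p ≠ 0 → ‖p.1‖ ≤ R) →
    ∫⁻ v in D ∩ closedBall 0 L, G J δ a f v ≤ K * (∫⁻ p, f p) ^ θ

section basic

variable {ι : Type*} [Fintype ι] {J : Set ℝ} {L R δ θ : ℝ} {K : ℝ≥0∞} {D : Set (ι → ℝ)}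
  {a : (ι → ℝ) → (ι → ℝ)}

theorem G_const_mul (f : (ι → ℝ) × ℝ → ℝ≥0∞) {c : ℝ≥0∞} (hc : c ≠ ∞) (v : ι → ℝ) :
    G J δ a (fun p => c * f p) v = c * G J δ a f v := by
  unfold G
  rw [← lintegral_const_mul' _ _ hc]
  congr 1
  ext t
  rw [← lintegral_const_mul' _ _ hc]

theorem measurable_G (ha : Measurable a) {f : (ι → ℝ) × ℝ → ℝ≥0∞} (hf : Measurable f) :
    Measurable (G J δ a f) := by
  unfold G
  apply Measurable.lintegral_prod_right' (f := fun q : (ι → ℝ) × ℝ =>
    ∫⁻ y in closedBall (0 : ι → ℝ) 1, f (a q.1 + q.2 • q.1 + δ • y, q.2))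
  apply Measurable.lintegral_prod_right' (f := fun q : ((ι → ℝ) × ℝ) × (ι → ℝ) =>
    f (a q.1.1 + q.1.2 • q.1.1 + δ • q.2, q.1.2))
  fun_prop

theorem EstAt.scale (h : EstAt J L R δ θ K D a) {M : ℝ≥0∞} (hM0 : M ≠ 0) (hM : M ≠ ∞)
    {f : (ι → ℝ) × ℝ → ℝ≥0∞} (hf : Measurable f) (hf1 : ∀ p, f p ≤ M)
    (hfR : ∀ p, f p ≠ 0 → ‖p.1‖ ≤ R) (hθ : 0 ≤ θ) :
    ∫⁻ v in D ∩ closedBall 0 L, G J δ a f v ≤ K * M ^ (1 - θ) * (∫⁻ p, f p) ^ θ := by
  have hMi : M⁻¹ ≠ ∞ := ENNReal.inv_ne_top.2 hM0
  have h1 := h (fun p => M⁻¹ * f p) (hf.const_mul _) (fun p => ?_) (fun p hp => ?_)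
  · simp_rw [G_const_mul f hMi] at h1
    rw [lintegral_const_mul' _ _ hMi, lintegral_const_mul' _ _ hMi,
      ENNReal.mul_rpow_of_nonneg _ _ hθ] at h1
    calc ∫⁻ v in D ∩ closedBall 0 L, G J δ a f v
        = M * (M⁻¹ * ∫⁻ v in D ∩ closedBall 0 L, G J δ a f v) := by
          rw [← mul_assoc, ENNReal.mul_inv_cancel hM0 hM, one_mul]
      _ ≤ M * (K * (M⁻¹ ^ θ * (∫⁻ p, f p) ^ θ)) := by gcongr
      _ = K * (M * M⁻¹ ^ θ) * (∫⁻ p, f p) ^ θ := by ring
      _ = _ := by
          congr 2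
          rw [ENNReal.inv_rpow, ← ENNReal.rpow_neg]
          nth_rewrite 1 [← ENNReal.rpow_one M]
          rw [← ENNReal.rpow_add _ _ hM0 hM]
          congr 1
  · rw [← ENNReal.inv_mul_cancel hM0 hM]
    gcongr
    exact hf1 p
  · exact hfR p (fun h0 => hp (by simp [h0]))

theorem EstAt.mono {K' : ℝ≥0∞} (h : EstAt J L R δ θ K D a) (hK : K ≤ K') :
    EstAt J L R δ θ K' D a := fun f hf hf1 hfR => (h f hf hf1 hfR).trans (by gcongr)

theorem EstAt.subset {D' : Set (ι → ℝ)} (h : EstAt J L R δ θ K D a) (hD : D' ⊆ D) :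
    EstAt J L R δ θ K D' a := fun f hf hf1 hfR =>
  (lintegral_mono_set (inter_subset_inter_left _ hD)).trans (h f hf hf1 hfR)

end basic

section join

variable {ι : Type*} {p : ι → Prop} [DecidablePred p]

/-- Recombination of the coordinates. -/
def join (x : {i // p i} → ℝ) (y : {i // ¬ p i} → ℝ) : ι → ℝ :=
  fun i => if h : p i then x ⟨i, h⟩ else y ⟨i, h⟩

theorem join_add (x x' : {i // p i} → ℝ) (y y' : {i // ¬ p i} → ℝ) :
    join (x + x') (y + y') = join x y + join x' y' := by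
  ext i
  simp only [join, Pi.add_apply]
  split_ifs <;> rfl

theorem join_smul (c : ℝ) (x : {i // p i} → ℝ) (y : {i // ¬ p i} → ℝ) :
    join (c • x) (c • y) = c • join x y := by
  ext i
  simp only [join, Pi.smul_apply]
  split_ifs <;> rfl

theorem join_res (v : ι → ℝ) :
    join (p := p) (fun i => v i.1) (fun i => v i.1) = v := by
  ext i
  simp only [join]
  split_ifs <;> rfl

theorem join_fst (x : {i // p i} → ℝ) (y : {i // ¬ p i} → ℝ) :
    (fun i : {i // p i} => join x y i.1) = x := by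
  ext i
  simp [join, i.2]

theorem join_snd (x : {i // p i} → ℝ) (y : {i // ¬ p i} → ℝ) :
    (fun i : {i // ¬ p i} => join x y i.1) = y := by
  ext i
  simp [join, i.2]

theorem join_norm [Fintype ι] (x : {i // p i} → ℝ) (y : {i // ¬ p i} → ℝ) {L : ℝ} (hL : 0 ≤ L) :
    ‖join x y‖ ≤ L ↔ ‖x‖ ≤ L ∧ ‖y‖ ≤ L := by
  rw [pi_norm_le_iff_of_nonneg hL, pi_norm_le_iff_of_nonneg hL, pi_norm_le_iff_of_nonneg hL]
  constructor
  · intro h
    refine ⟨fun i => ?_, fun i => ?_⟩
    · have := h i.1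
      simpa [join, i.2] using this
    · have := h i.1
      simpa [join, i.2] using this
  · rintro ⟨h1, h2⟩ i
    simp only [join]
    split_ifs with h
    · exact h1 ⟨i, h⟩
    · exact h2 ⟨i, h⟩

theorem measurable_join : Measurable
    (fun z : ({i // p i} → ℝ) × ({i // ¬ p i} → ℝ) => join z.1 z.2) := by
  rw [measurable_pi_iff]
  intro i
  simp only [join]
  split_ifs with h
  · exact (measurable_pi_apply _).comp measurable_fst
  · exact (measurable_pi_apply _).comp measurable_snd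

theorem lintegral_join [Fintype ι] {F : (ι → ℝ) → ℝ≥0∞} (hF : Measurable F) :
    ∫⁻ v, F v = ∫⁻ x : {i // p i} → ℝ, ∫⁻ y : {i // ¬ p i} → ℝ, F (join x y) := by
  have h1 := (volume_preserving_piEquivPiSubtypeProd (fun _ : ι => ℝ) p).symm
  have h2 := h1.lintegral_comp hF
  rw [← h2]
  exact lintegral_prod _ (hF.comp measurable_join).aemeasurable

theorem lintegral_join_swap [Fintype ι] {F : (ι → ℝ) → ℝ≥0∞} (hF : Measurable F) :
    ∫⁻ v, F v = ∫⁻ y : {i // ¬ p i} → ℝ, ∫⁻ x : {i // p i} → ℝ, F (join x y) := by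
  rw [lintegral_join (p := p) hF]
  exact lintegral_lintegral_swap (hF.comp measurable_join).aemeasurable

end join

theorem jensen {X : Type*} [MeasurableSpace X] (μ : Measure X) {h : X → ℝ≥0∞} (hh : Measurable h)
    {θ : ℝ} (hθ : 0 < θ) (hθ1 : θ ≤ 1) :
    ∫⁻ x, h x ^ θ ∂μ ≤ μ univ ^ (1 - θ) * (∫⁻ x, h x ∂μ) ^ θ := by
  rcases hθ1.eq_or_lt with rfl | hlt
  · simp
  · have hpq : (1 / θ).HolderConjugate (1 / (1 - θ)) := by
      rw [Real.holderConjugate_iff]
      refine ⟨?_, ?_⟩
      · rw [lt_div_iff₀ hθ]; linarith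
      · simp
    have h1 := ENNReal.lintegral_mul_le_Lp_mul_Lq μ hpq (f := fun x => h x ^ θ) (g := fun _ => 1)
      (hh.pow_const _).aemeasurable aemeasurable_const
    simp only [Pi.mul_apply, mul_one, one_div, inv_inv, ENNReal.one_rpow, lintegral_const,
      one_mul] at h1
    have h2 : ∀ x, (h x ^ θ) ^ θ⁻¹ = h x := fun x => by
      rw [← ENNReal.rpow_mul, mul_inv_cancel₀ hθ.ne', ENNReal.rpow_one]
    simp only [h2] at h1
    rw [mul_comm]
    exact h1

section ext

variable {ι : Type*} [Fintype ι] {p : ι → Prop} [DecidablePred p] {J : Set ℝ} {L R δ : ℝ}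
  {D : Set (ι → ℝ)} {a : (ι → ℝ) → (ι → ℝ)} {D' : Set ({i // p i} → ℝ)}
  {a' : ({i // p i} → ℝ) → ({i // p i} → ℝ)} {D'' : ({i // p i} → ℝ) → Set ({i // ¬ p i} → ℝ)}
  {a'' : ({i // p i} → ℝ) → ({i // ¬ p i} → ℝ) → ({i // ¬ p i} → ℝ)}

/-- average over the base tube -/
noncomputable def gg (J : Set ℝ) (δ : ℝ) (a' : ({i // p i} → ℝ) → ({i // p i} → ℝ))
    (f : (ι → ℝ) × ℝ → ℝ≥0∞) (x : {i // p i} → ℝ) : ({i // ¬ p i} → ℝ) × ℝ → ℝ≥0∞ :=
  fun q => J.indicator (fun t => ∫⁻ w in closedBall (0 : {i // p i} → ℝ) 1,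
    f (join (a' x + t • x + δ • w) q.1, t)) q.2

/-- integral over the fibres -/
noncomputable def FF (p : ι → Prop) [DecidablePred p] (f : (ι → ℝ) × ℝ → ℝ≥0∞) :
    ({i // p i} → ℝ) × ℝ → ℝ≥0∞ := fun q => ∫⁻ z : {i // ¬ p i} → ℝ, f (join q.1 z, q.2)

theorem measurable_FF {f : (ι → ℝ) × ℝ → ℝ≥0∞} (hf : Measurable f) : Measurable (FF p f) := by
  unfold FF
  apply Measurable.lintegral_prod_right' (f := fun q : (({i // p i} → ℝ) × ℝ) × ({i // ¬ p i} → ℝ) =>
    f (join q.1.1 q.2, q.1.2))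
  exact hf.comp ((measurable_join.comp ((measurable_fst.comp measurable_fst).prodMk
    measurable_snd)).prodMk (measurable_snd.comp measurable_fst))

theorem lintegral_FF {f : (ι → ℝ) × ℝ → ℝ≥0∞} (hf : Measurable f) :
    ∫⁻ q, FF p f q = ∫⁻ q, f q := by
  rw [Measure.volume_eq_prod, Measure.volume_eq_prod, lintegral_prod_symm' _ (measurable_FF hf),
    lintegral_prod_symm' _ hf]
  congr 1
  ext t
  rw [lintegral_join (p := p) (F := fun u => f (u, t)) (by fun_prop)]
  rfl

theorem measurable_gg_aux (hJ : MeasurableSet J) {f : (ι → ℝ) × ℝ → ℝ≥0∞} (hf : Measurable f)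
    (ha' : Measurable a') :
    Measurable (fun s : ({i // p i} → ℝ) × (({i // ¬ p i} → ℝ) × ℝ) => gg J δ a' f s.1 s.2) := by
  have h1 : Measurable (fun s : ({i // p i} → ℝ) × (({i // ¬ p i} → ℝ) × ℝ) =>
      ∫⁻ w in closedBall (0 : {i // p i} → ℝ) 1,
        f (join (a' s.1 + s.2.2 • s.1 + δ • w) s.2.1, s.2.2)) := by
    apply Measurable.lintegral_prod_right' (f := fun q : (({i // p i} → ℝ) ×
      (({i // ¬ p i} → ℝ) × ℝ)) × ({i // p i} → ℝ) =>
      f (join (a' q.1.1 + q.1.2.2 • q.1.1 + δ • q.2) q.1.2.1, q.1.2.2))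
    refine hf.comp (Measurable.prodMk ?_ (by fun_prop))
    exact measurable_join.comp (Measurable.prodMk (by fun_prop) (by fun_prop))
  have h2 : (fun s : ({i // p i} → ℝ) × (({i // ¬ p i} → ℝ) × ℝ) => gg J δ a' f s.1 s.2) =
      ({s : ({i // p i} → ℝ) × (({i // ¬ p i} → ℝ) × ℝ) | s.2.2 ∈ J}).indicator (fun s =>
      ∫⁻ w in closedBall (0 : {i // p i} → ℝ) 1,
        f (join (a' s.1 + s.2.2 • s.1 + δ • w) s.2.1, s.2.2)) := by
    ext s
    unfold gg
    by_cases h : s.2.2 ∈ J
    · rw [indicator_of_mem h, indicator_of_mem (by exact h)]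
    · rw [indicator_of_notMem h, indicator_of_notMem (by exact h)]
  rw [h2]
  exact h1.indicator ((measurable_snd.comp measurable_snd) hJ)

theorem measurable_gg (hJ : MeasurableSet J) {f : (ι → ℝ) × ℝ → ℝ≥0∞} (hf : Measurable f)
    (ha' : Measurable a') (x : {i // p i} → ℝ) : Measurable (gg J δ a' f x) :=
  (measurable_gg_aux (δ := δ) hJ hf ha').comp measurable_prodMk_left

theorem lintegral_gg (hJ : MeasurableSet J) {f : (ι → ℝ) × ℝ → ℝ≥0∞} (hf : Measurable f)
    (ha' : Measurable a') (x : {i // p i} → ℝ) :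
    ∫⁻ q, gg J δ a' f x q = G J δ a' (FF p f) x := by
  rw [Measure.volume_eq_prod, lintegral_prod_symm' _ (measurable_gg hJ hf ha' x)]
  unfold G
  rw [← lintegral_indicator hJ]
  congr 1
  ext t
  by_cases ht : t ∈ J
  · rw [indicator_of_mem ht]
    have h1 : ∀ z, gg J δ a' f x (z, t) = ∫⁻ w in closedBall (0 : {i // p i} → ℝ) 1,
        f (join (a' x + t • x + δ • w) z, t) := by
      intro z
      unfold gg
      rw [indicator_of_mem (by exact ht)]
    simp_rw [h1]
    unfold FF
    simp only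
    rw [lintegral_lintegral_swap]
    apply Measurable.aemeasurable
    exact hf.comp ((measurable_join.comp (Measurable.prodMk (by fun_prop) (by fun_prop))).prodMk
      (by fun_prop))
  · rw [indicator_of_notMem ht]
    have h1 : ∀ z, gg J δ a' f x (z, t) = 0 := by
      intro z
      unfold gg
      rw [indicator_of_notMem (by exact ht)]
    simp_rw [h1]
    simp

theorem G_join (hJ : MeasurableSet J) {f : (ι → ℝ) × ℝ → ℝ≥0∞} (hf : Measurable f)
    {x : {i // p i} → ℝ} {y : {i // ¬ p i} → ℝ} (hav : a (join x y) = join (a' x) (a'' x y)) :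
    G J δ a f (join x y) = G J δ (a'' x) (gg J δ a' f x) y := by
  unfold G
  apply setLIntegral_congr_fun hJ
  intro t ht
  simp only
  have h0 : (0 : ℝ) ≤ 1 := zero_le_one
  rw [← lintegral_indicator (isClosed_closedBall.measurableSet)]
  rw [lintegral_join_swap (p := p) (F := (closedBall (0 : ι → ℝ) 1).indicator
    (fun w => f (a (join x y) + t • join x y + δ • w, t)))
    (Measurable.indicator (by fun_prop) isClosed_closedBall.measurableSet)]
  rw [← lintegral_indicator (isClosed_closedBall.measurableSet)]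
  congr 1
  ext w''
  by_cases hw : w'' ∈ closedBall (0 : {i // ¬ p i} → ℝ) 1
  · rw [indicator_of_mem hw]
    unfold gg
    rw [indicator_of_mem (by exact ht), ← lintegral_indicator (isClosed_closedBall.measurableSet)]
    congr 1
    ext w'
    by_cases hw' : w' ∈ closedBall (0 : {i // p i} → ℝ) 1
    · have hj : join w' w'' ∈ closedBall (0 : ι → ℝ) 1 := by
        rw [mem_closedBall_zero_iff] at hw hw' ⊢
        exact (join_norm _ _ h0).2 ⟨hw', hw⟩
      rw [indicator_of_mem hj, indicator_of_mem hw', hav, ← join_smul, ← join_smul, ← join_add,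
        ← join_add]
    · have hj : join w' w'' ∉ closedBall (0 : ι → ℝ) 1 := by
        rw [mem_closedBall_zero_iff] at hw' ⊢
        exact fun h => hw' ((join_norm _ _ h0).1 h).1
      rw [indicator_of_notMem hj, indicator_of_notMem hw']
  · rw [indicator_of_notMem hw]
    have : ∀ w', (closedBall (0 : ι → ℝ) 1).indicator
        (fun w => f (a (join x y) + t • join x y + δ • w, t)) (join w' w'') = 0 := by
      intro w'
      apply indicator_of_notMem
      rw [mem_closedBall_zero_iff] at hw ⊢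
      exact fun h => hw ((join_norm _ _ h0).1 h).2
    simp_rw [this]
    simp

/-- **Extension**: if the base family and, uniformly, all fibre families satisfy the estimate, so does
the triangular family. -/
theorem ext_est (hJ : MeasurableSet J) (hR : 0 < R) (hL : 0 ≤ L) (hD : MeasurableSet D)
    (ha : Measurable a) (hD' : MeasurableSet D') (ha' : Measurable a')
    (hD'' : ∀ x, MeasurableSet (D'' x))
    (hsub : ∀ x y, join x y ∈ D → x ∈ D' ∧ y ∈ D'' x)
    (hav : ∀ x y, join x y ∈ D → a (join x y) = join (a' x) (a'' x y))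
    {θ' θ'' : ℝ} (hθ' : 0 < θ') (hθ'' : 0 < θ'') (hθ1'' : θ'' ≤ 1)
    {K' K'' : ℝ≥0∞} (h' : EstAt J L R δ θ' K' D' a')
    (h'' : ∀ x ∈ D', EstAt J L R δ θ'' K'' (D'' x) (a'' x)) :
    EstAt J L R δ (θ' * θ'') (K'' * volume (closedBall (0 : {i // p i} → ℝ) 1) ^ (1 - θ'') *
      (volume (closedBall (0 : {i // p i} → ℝ) L) ^ (1 - θ'') *
        (K' * volume (closedBall (0 : {i // ¬ p i} → ℝ) R) ^ (1 - θ')) ^ θ'')) D a := by
  intro f hf hf1 hfR
  set M1 := volume (closedBall (0 : {i // p i} → ℝ) 1) with hM1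
  set V := volume (closedBall (0 : {i // p i} → ℝ) L) with hV
  set M2 := volume (closedBall (0 : {i // ¬ p i} → ℝ) R) with hM2
  have hM10 : M1 ≠ 0 := (measure_closedBall_pos _ _ one_pos).ne'
  have hM1t : M1 ≠ ∞ := measure_closedBall_lt_top.ne
  have hM20 : M2 ≠ 0 := (measure_closedBall_pos _ _ hR).ne'
  have hM2t : M2 ≠ ∞ := measure_closedBall_lt_top.ne
  have hBm : MeasurableSet (D ∩ closedBall 0 L) := hD.inter isClosed_closedBall.measurableSet
  have hBm' : MeasurableSet (D' ∩ closedBall 0 L) := hD'.inter isClosed_closedBall.measurableSet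
  have hBm'' : ∀ x, MeasurableSet (D'' x ∩ closedBall 0 L) := fun x =>
    (hD'' x).inter isClosed_closedBall.measurableSet
  have hgg1 : ∀ x q, gg J δ a' f x q ≤ M1 := by
    intro x q
    unfold gg
    by_cases ht : q.2 ∈ J
    · rw [indicator_of_mem ht]
      calc ∫⁻ w in closedBall (0 : {i // p i} → ℝ) 1, f (join (a' x + q.2 • x + δ • w) q.1, q.2)
          ≤ ∫⁻ w in closedBall (0 : {i // p i} → ℝ) 1, 1 := lintegral_mono fun w => hf1 _
        _ = M1 := by rw [setLIntegral_const, one_mul]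
    · rw [indicator_of_notMem ht]
      exact zero_le
  have hggR : ∀ x q, gg J δ a' f x q ≠ 0 → ‖q.1‖ ≤ R := by
    intro x q hq
    by_contra hc
    apply hq
    unfold gg
    by_cases ht : q.2 ∈ J
    · rw [indicator_of_mem ht]
      have : ∀ w, f (join (a' x + q.2 • x + δ • w) q.1, q.2) = 0 := by
        intro w
        by_contra h0
        exact hc ((join_norm _ _ hR.le).1 (hfR _ h0)).2
      simp_rw [this]
      simp
    · rw [indicator_of_notMem ht]
  have hFF1 : ∀ q, FF p f q ≤ M2 := by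
    intro q
    unfold FF
    calc ∫⁻ z : {i // ¬ p i} → ℝ, f (join q.1 z, q.2)
        ≤ ∫⁻ z : {i // ¬ p i} → ℝ, (closedBall 0 R).indicator (fun _ => 1) z := by
          apply lintegral_mono
          intro z
          by_cases hz : z ∈ closedBall (0 : {i // ¬ p i} → ℝ) R
          · rw [indicator_of_mem hz]
            exact hf1 _
          · rw [indicator_of_notMem hz]
            refine le_of_eq ?_
            by_contra h0
            apply hz
            rw [mem_closedBall_zero_iff]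
            exact ((join_norm _ _ hR.le).1 (hfR _ h0)).2
      _ = M2 := by
          rw [lintegral_indicator isClosed_closedBall.measurableSet, setLIntegral_const, one_mul]
  have hFFR : ∀ q, FF p f q ≠ 0 → ‖q.1‖ ≤ R := by
    intro q hq
    by_contra hc
    apply hq
    unfold FF
    have : ∀ z : {i // ¬ p i} → ℝ, f (join q.1 z, q.2) = 0 := by
      intro z
      by_contra h0
      exact hc ((join_norm _ _ hR.le).1 (hfR _ h0)).1
    simp_rw [this]
    simp
  have hGm : Measurable (G J δ a' (FF p f)) := measurable_G ha' (measurable_FF hf)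
  calc ∫⁻ v in D ∩ closedBall 0 L, G J δ a f v
      = ∫⁻ v, (D ∩ closedBall 0 L).indicator (G J δ a f) v := (lintegral_indicator hBm _).symm
    _ = ∫⁻ x : {i // p i} → ℝ, ∫⁻ y : {i // ¬ p i} → ℝ,
          (D ∩ closedBall 0 L).indicator (G J δ a f) (join x y) :=
        lintegral_join ((measurable_G ha hf).indicator hBm)
    _ ≤ ∫⁻ x : {i // p i} → ℝ, (D' ∩ closedBall 0 L).indicator (fun x =>
          ∫⁻ y in D'' x ∩ closedBall 0 L, G J δ (a'' x) (gg J δ a' f x) y) x := by
        apply lintegral_mono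
        intro x
        by_cases hx : x ∈ D' ∩ closedBall 0 L
        · rw [indicator_of_mem hx, ← lintegral_indicator (hBm'' x)]
          apply lintegral_mono
          intro y
          by_cases hy : join x y ∈ D ∩ closedBall 0 L
          · have hy2 : y ∈ D'' x ∩ closedBall 0 L := by
              refine ⟨(hsub x y hy.1).2, ?_⟩
              have := hy.2
              rw [mem_closedBall_zero_iff] at this ⊢
              exact ((join_norm _ _ hL).1 this).2
            simp only
            rw [indicator_of_mem hy, indicator_of_mem hy2, G_join hJ hf (hav x y hy.1)]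
          · simp only
            rw [indicator_of_notMem hy]
            exact zero_le
        · rw [indicator_of_notMem hx]
          have : ∀ y : {i // ¬ p i} → ℝ,
              (D ∩ closedBall 0 L).indicator (G J δ a f) (join x y) = 0 := by
            intro y
            apply indicator_of_notMem
            intro hy
            apply hx
            refine ⟨(hsub x y hy.1).1, ?_⟩
            have := hy.2
            rw [mem_closedBall_zero_iff] at this ⊢
            exact ((join_norm _ _ hL).1 this).1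
          simp_rw [this]
          simp
    _ = ∫⁻ x in D' ∩ closedBall 0 L,
          ∫⁻ y in D'' x ∩ closedBall 0 L, G J δ (a'' x) (gg J δ a' f x) y :=
        lintegral_indicator hBm' _
    _ ≤ ∫⁻ x in D' ∩ closedBall 0 L, K'' * M1 ^ (1 - θ'') * G J δ a' (FF p f) x ^ θ'' := by
        apply setLIntegral_mono' hBm'
        intro x hx
        have := (h'' x hx.1).scale hM10 hM1t (measurable_gg (δ := δ) hJ hf ha' x) (hgg1 x) (hggR x)
          hθ''.le
        rwa [lintegral_gg hJ hf ha' x] at this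
    _ = K'' * M1 ^ (1 - θ'') * ∫⁻ x in D' ∩ closedBall 0 L, G J δ a' (FF p f) x ^ θ'' :=
        lintegral_const_mul _ (hGm.pow_const _)
    _ ≤ K'' * M1 ^ (1 - θ'') * ((volume.restrict (D' ∩ closedBall 0 L)) univ ^ (1 - θ'') *
          (∫⁻ x in D' ∩ closedBall 0 L, G J δ a' (FF p f) x) ^ θ'') := by
        gcongr
        exact jensen _ hGm hθ'' hθ1''
    _ ≤ K'' * M1 ^ (1 - θ'') * (V ^ (1 - θ'') *
          (K' * M2 ^ (1 - θ') * (∫⁻ q, FF p f q) ^ θ') ^ θ'') := by
        have e1 : (0 : ℝ) ≤ 1 - θ'' := by linarith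
        gcongr
        · rw [Measure.restrict_apply_univ]
          exact measure_mono inter_subset_right
        · exact h'.scale hM20 hM2t (measurable_FF hf) hFF1 hFFR hθ'.le
    _ = _ := by
        rw [lintegral_FF hf, ENNReal.mul_rpow_of_nonneg _ _ hθ''.le, ← ENNReal.rpow_mul]
        ring

end ext

end Run7.h523.TW
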