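import Pool.Agent.Run7.h523.TW.Core

set_option autoImplicit false
set_option linter.unusedSectionVars false

/-!
# Towers of front families: localisation and conclusion
-/

open MeasureTheory Set Metric Filter Topology
open scoped ENNReal NNReal

namespace Run7.h523.TW

/-- Towers of front families; `u m` is the axis of the block number `m`. -/
structure Tow {ι : Type} [Fintype ι] (b : ι → ℕ) (D : ℕ → Set (ι → ℝ))
    (α β : ℕ → (ι → ℝ) → ℝ) (u : ℕ → (ι → ℝ) → (ι → ℝ)) (a : (ι → ℝ) → (ι → ℝ)) : Prop where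
  meas_a : Measurable a
  meas_D : ∀ m, MeasurableSet (D m)
  meas_α : ∀ m, Measurable (α m)
  meas_β : ∀ m, Measurable (β m)
  meas_u : ∀ m, Measurable (u m)
  tri : ∀ m v w, (∀ j, b j ≤ m → v j = w j) →
    (v ∈ D m → w ∈ D m) ∧ α m v = α m w ∧ β m v = β m w ∧ ∀ i, b i = m → a v i = a w i
  axis : ∀ m v w, (∀ j, b j < m → v j = w j) → ∀ i, b i = m → u m v i = u m w i
  front : ∀ m, 2 ≤ Fintype.card {i // b i = m} → ∀ L : ℝ, ∃ ρ > 0, ∀ v ∈ D m, ∀ w ∈ D m,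
    ‖v‖ ≤ L → ‖w‖ ≤ L → (∀ j, b j < m → v j = w j) →
    bn b m (v - u m v) = bn b m (w - u m w) → bn b m (v - w) ≤ ρ →
    ∀ s ∈ Icc (α m v) (β m v), ∀ s' ∈ Icc (α m w) (β m w), |s| ≤ L → |s'| ≤ L → |s - s'| ≤ ρ →
    bn b m ((a v + s • (v - u m v)) - (a w + s' • (w - u m w))) ≤ ρ →
    bn b m (v - u m v) * |s - s'| ≤
      bn b m ((a v + s • (v - u m v)) - (a w + s' • (w - u m w)))

theorem exists_pos_le {ι : Type} [Finite ι] (g : ι → ℝ) (hg : ∀ i, 0 < g i) :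
    ∃ ε > 0, ∀ i, ε ≤ g i := by
  rcases isEmpty_or_nonempty ι with h | h
  · exact ⟨1, one_pos, fun i => (h.false i).elim⟩
  · obtain ⟨i₀, h0⟩ := Finite.exists_min g
    exact ⟨g i₀, hg i₀, h0⟩

section loc

variable {ι : Type} [Fintype ι] {b : ι → ℕ} {D : ℕ → Set (ι → ℝ)}
  {α β : ℕ → (ι → ℝ) → ℝ} {u : ℕ → (ι → ℝ) → (ι → ℝ)} {a : (ι → ℝ) → (ι → ℝ)}

theorem bn_congr {m : ℕ} {u u' : ι → ℝ} (h : ∀ i, b i = m → u i = u' i) :
    bn b m u = bn b m u' := by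
  unfold bn
  congr 1
  apply Finset.sum_congr rfl
  intro i _
  by_cases hi : b i = m
  · rw [if_pos hi, if_pos hi, h i hi]
  · rw [if_neg hi, if_neg hi]

/-- truncation -/
def trunc (b : ι → ℕ) (m : ℕ) (v : ι → ℝ) : ι → ℝ := fun j => if b j ≤ m then v j else 0

theorem trunc_eq {m : ℕ} (v : ι → ℝ) {j : ι} (hj : b j ≤ m) : trunc b m v j = v j := if_pos hj

/-- localised domains -/
def Dh (b : ι → ℕ) (D : ℕ → Set (ι → ℝ)) (α β : ℕ → (ι → ℝ) → ℝ) (u : ℕ → (ι → ℝ) → (ι → ℝ))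
    (L c h : ℝ) (m : ℕ) : Set (ι → ℝ) :=
  {v | (∀ j, b j ≤ m → |v j| ≤ L) ∧
    ∀ i, b i = m → v ∈ D m ∧ α m v ≤ c ∧ c + h ≤ β m v ∧ |u m v i| ≤ L}

theorem Tow.toTowJ (T : Tow b D α β u a) {L c h : ℝ} (hL : 0 ≤ L) (h1 : |c| ≤ L)
    (h2 : |c + h| ≤ L) :
    ∃ ρ > 0, TowJ b ρ L (Icc c (c + h)) (Dh b D α β u L c h) u a := by
  classical
  have hex : ∀ m, ∃ ρ > 0, 2 ≤ Fintype.card {i // b i = m} → ∀ v ∈ D m, ∀ w ∈ D m,
    ‖v‖ ≤ L → ‖w‖ ≤ L → (∀ j, b j < m → v j = w j) →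
    bn b m (v - u m v) = bn b m (w - u m w) → bn b m (v - w) ≤ ρ →
    ∀ s ∈ Icc (α m v) (β m v), ∀ s' ∈ Icc (α m w) (β m w), |s| ≤ L → |s'| ≤ L → |s - s'| ≤ ρ →
    bn b m ((a v + s • (v - u m v)) - (a w + s' • (w - u m w))) ≤ ρ →
    bn b m (v - u m v) * |s - s'| ≤
      bn b m ((a v + s • (v - u m v)) - (a w + s' • (w - u m w))) := by
    intro m
    by_cases hm : 2 ≤ Fintype.card {i // b i = m}
    · obtain ⟨ρ, hρ, h⟩ := T.front m hm L
      exact ⟨ρ, hρ, fun _ => h⟩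
    · exact ⟨1, one_pos, fun h => absurd h hm⟩
  choose ρf hρf hfr using hex
  obtain ⟨ρ, hρ, hρi⟩ := exists_pos_le (fun i : ι => ρf (b i)) (fun i => hρf _)
  refine ⟨ρ, hρ, ?_⟩
  refine ⟨T.meas_a, ?_, ?_, ?_, ?_, ?_, ?_⟩
  · intro m
    have e : Dh b D α β u L c h m = (⋂ j : {j // b j ≤ m}, {v | |v j.1| ≤ L}) ∩
        ⋂ i : {i // b i = m}, (D m ∩ ({v | α m v ≤ c} ∩ ({v | c + h ≤ β m v} ∩
          {v | |u m v i.1| ≤ L}))) := by
      ext v
      simp only [Dh, mem_inter_iff, mem_iInter, Set.mem_ofPred_eq, Subtype.forall]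
    rw [e]
    refine MeasurableSet.inter (MeasurableSet.iInter fun j => ?_)
      (MeasurableSet.iInter fun i => (T.meas_D m).inter (MeasurableSet.inter ?_
        (MeasurableSet.inter ?_ ?_)))
    · exact measurableSet_le (by fun_prop) measurable_const
    · exact measurableSet_le (T.meas_α m) measurable_const
    · exact measurableSet_le measurable_const (T.meas_β m)
    · have := T.meas_u m
      exact measurableSet_le (by fun_prop) measurable_const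
  · rintro m v w hvw ⟨hv1, hv2⟩
    refine ⟨fun j hj => by rw [← hvw j hj]; exact hv1 j hj, fun i hi => ?_⟩
    obtain ⟨h3, h4, h5, h6⟩ := hv2 i hi
    obtain ⟨t1, t2, t3, -⟩ := T.tri m v w hvw
    refine ⟨t1 h3, by rw [← t2]; exact h4, by rw [← t3]; exact h5, ?_⟩
    rw [← T.axis m v w (fun j hj => hvw j hj.le) i hi]
    exact h6
  · intro v w i hvw
    exact (T.tri (b i) v w hvw).2.2.2 i rfl
  · intro m v hv i hi
    exact (hv.2 i hi).2.2.2
  · exact T.axis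
  · intro m hm v hv w hw hvw h3 h4 s hs s' hs' h5 h6
    have hpos : 0 < Fintype.card {i // b i = m} := by omega
    obtain ⟨i₀⟩ := Fintype.card_pos_iff.1 hpos
    have hρm : ρ ≤ ρf m := by
      have := hρi i₀.1
      rwa [i₀.2] at this
    have habs : ∀ s ∈ Icc c (c + h), |s| ≤ L := by
      intro s hs
      rw [abs_le] at h1 h2 ⊢
      exact ⟨by linarith [hs.1, h1.1], by linarith [hs.2, h2.2]⟩
    have hnorm : ∀ x ∈ Dh b D α β u L c h m, ‖trunc b m x‖ ≤ L := by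
      intro x hx
      rw [pi_norm_le_iff_of_nonneg hL]
      intro j
      by_cases hj : b j ≤ m
      · rw [trunc_eq x hj, Real.norm_eq_abs]
        exact hx.1 j hj
      · simp only [trunc, if_neg hj, norm_zero]
        exact hL
    have htr : ∀ x, (∀ j, b j ≤ m → x j = trunc b m x j) := fun x j hj => (trunc_eq x hj).symm
    have key : ∀ x ∈ Dh b D α β u L c h m, trunc b m x ∈ D m ∧ α m (trunc b m x) ≤ c ∧
        c + h ≤ β m (trunc b m x) ∧ ∀ i, b i = m → a x i = a (trunc b m x) i := by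
      intro x hx
      obtain ⟨t1, t2, t3, t4⟩ := T.tri m x (trunc b m x) (htr x)
      obtain ⟨h7, h8, h9, _⟩ := hx.2 i₀.1 i₀.2
      exact ⟨t1 h7, by rw [← t2]; exact h8, by rw [← t3]; exact h9, t4⟩
    have hax : ∀ x i, b i = m → u m (trunc b m x) i = u m x i := fun x i hi =>
      (T.axis m x (trunc b m x) (fun j hj => htr x j hj.le) i hi).symm
    obtain ⟨kv1, kv2, kv3, kv4⟩ := key v hv
    obtain ⟨kw1, kw2, kw3, kw4⟩ := key w hw
    have e1 : ∀ x, bn b m (trunc b m x - u m (trunc b m x)) = bn b m (x - u m x) := fun x =>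
      bn_congr fun i hi => by
        simp only [Pi.sub_apply]
        rw [trunc_eq x hi.le, hax x i hi]
    have e2 : bn b m (trunc b m v - trunc b m w) = bn b m (v - w) := by
      apply bn_congr
      intro i hi
      simp only [Pi.sub_apply]
      rw [trunc_eq v hi.le, trunc_eq w hi.le]
    have e3 : bn b m ((a (trunc b m v) + s • (trunc b m v - u m (trunc b m v))) -
        (a (trunc b m w) + s' • (trunc b m w - u m (trunc b m w)))) =
        bn b m ((a v + s • (v - u m v)) - (a w + s' • (w - u m w))) := by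
      apply bn_congr
      intro i hi
      simp only [Pi.sub_apply, Pi.add_apply, Pi.smul_apply]
      rw [trunc_eq v hi.le, trunc_eq w hi.le, kv4 i hi, kw4 i hi, hax v i hi, hax w i hi]
    have h10 := hfr m hm (trunc b m v) kv1 (trunc b m w) kw1 (hnorm v hv) (hnorm w hw) (by
      intro j hj
      rw [trunc_eq v hj.le, trunc_eq w hj.le, hvw j hj]) (by rw [e1, e1, h3])
      (by rw [e2]; exact h4.trans hρm) s ⟨kv2.trans hs.1, hs.2.trans kv3⟩ s'
      ⟨kw2.trans hs'.1, hs'.2.trans kw3⟩ (habs s hs) (habs s' hs') (h5.trans hρm)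
      (by rw [e3]; exact h6.trans hρm)
    rwa [e1, e3] at h10

/-- the localised sets of slopes -/
def Sl (b : ι → ℕ) (α β : ℕ → (ι → ℝ) → ℝ) (u : ℕ → (ι → ℝ) → (ι → ℝ))
    (a : (ι → ℝ) → (ι → ℝ)) (S : Set (ι → ℝ))
    (K : Set ((ι → ℝ) × ℝ)) (n : ℕ) (j : ℤ) (k : ℕ) : Set (ι → ℝ) :=
  {v | v ∈ S ∧ (‖v‖ ≤ k ∧ ∀ i, |u (b i) v i| ≤ k) ∧ (∀ i, α (b i) v ≤ (j : ℝ) / (n + 1) ∧
    (j : ℝ) / (n + 1) + 1 / (n + 1) ≤ β (b i) v) ∧
    ENNReal.ofReal (1 / ((k : ℝ) + 1)) ≤ volume {t : ℝ | t ∈ Icc ((j : ℝ) / (n + 1))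
      ((j : ℝ) / (n + 1) + 1 / (n + 1)) ∧ (a v + t • v, t) ∈ {p ∈ K | ‖p.1‖ ≤ k}}}

theorem cover {S : Set (ι → ℝ)} {K : Set ((ι → ℝ) × ℝ)}
    (hK : ∀ v ∈ S, volume {t : ℝ | (∀ i, t ∈ Icc (α (b i) v) (β (b i) v)) ∧
      (a v + t • v, t) ∈ K} ≠ 0) :
    S ⊆ ⋃ n : ℕ, ⋃ j : ℤ, ⋃ k : ℕ, Sl b α β u a S K n j k := by
  intro v hv
  have hpos := hK v hv
  set Tv : Set ℝ := {t : ℝ | (∀ i, t ∈ Icc (α (b i) v) (β (b i) v)) ∧ (a v + t • v, t) ∈ K} with hTv
  -- cells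
  set good : ℕ → ℤ → Prop := fun n j => ∀ i, α (b i) v ≤ (j : ℝ) / (n + 1) ∧
    (j : ℝ) / (n + 1) + 1 / (n + 1) ≤ β (b i) v with hgood
  set cell : ℕ → ℤ → Set ℝ := fun n j => Icc ((j : ℝ) / (n + 1)) ((j : ℝ) / (n + 1) + 1 / (n + 1))
    with hcell
  set ends : Set ℝ := (range fun i => α (b i) v) ∪ range fun i => β (b i) v with hends
  have hendsf : ends.Finite := (finite_range _).union (finite_range _)
  have hcov : Tv ⊆ ends ∪ ⋃ n : ℕ, ⋃ j : ℤ, ⋃ _ : good n j, ⋃ k : ℕ,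
      {t : ℝ | t ∈ cell n j ∧ (a v + t • v, t) ∈ {p ∈ K | ‖p.1‖ ≤ k}} := by
    intro t ht
    by_cases hte : t ∈ ends
    · exact Or.inl hte
    · right
      have hstrict : ∀ i, 0 < min (t - α (b i) v) (β (b i) v - t) := by
        intro i
        have h1 := ht.1 i
        refine lt_min ?_ ?_
        · rcases h1.1.eq_or_lt with h | h
          · exact absurd (Or.inl ⟨i, h⟩) hte
          · linarith
        · rcases h1.2.eq_or_lt with h | h
          · exact absurd (Or.inr ⟨i, h.symm⟩) hte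
          · linarith
      obtain ⟨ε, hε, hεi⟩ := exists_pos_le _ hstrict
      obtain ⟨n, hn⟩ := exists_nat_one_div_lt hε
      have hn0 : (0 : ℝ) < (n : ℝ) + 1 := by positivity
      have hj1 := Int.floor_le (t * (n + 1))
      have hj2 := Int.lt_floor_add_one (t * (n + 1))
      set j : ℤ := ⌊t * (n + 1)⌋ with hj
      have h3 : (j : ℝ) / (n + 1) ≤ t := by rwa [div_le_iff₀ hn0]
      have h4 : t ≤ (j : ℝ) / (n + 1) + 1 / (n + 1) := by
        rw [← add_div, le_div_iff₀ hn0]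
        exact hj2.le
      have hgd : good n j := by
        intro i
        have h5 := hεi i
        have h6 := h5.trans (min_le_left _ _)
        have h7 := h5.trans (min_le_right _ _)
        exact ⟨by linarith, by linarith⟩
      obtain ⟨k, hk⟩ := exists_nat_ge ‖a v + t • v‖
      exact mem_iUnion.2 ⟨n, mem_iUnion.2 ⟨j, mem_iUnion.2 ⟨hgd, mem_iUnion.2
        ⟨k, ⟨h3, h4⟩, ht.2, hk⟩⟩⟩⟩
  obtain ⟨n, j, hgd, k₁, hk₁⟩ : ∃ n : ℕ, ∃ j : ℤ, good n j ∧ ∃ k : ℕ,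
      volume {t : ℝ | t ∈ cell n j ∧ (a v + t • v, t) ∈ {p ∈ K | ‖p.1‖ ≤ k}} ≠ 0 := by
    by_contra hc
    push Not at hc
    apply hpos
    refine measure_mono_null hcov (measure_union_null (hendsf.measure_zero volume) ?_)
    refine measure_iUnion_null fun n => measure_iUnion_null fun j => measure_iUnion_null fun hg =>
      measure_iUnion_null fun k => hc n j hg k
  obtain ⟨k₂, hk₂⟩ := ENNReal.exists_inv_nat_lt hk₁
  obtain ⟨k₃, hk₃'⟩ := exists_nat_ge (‖v‖ + ∑ i, |u (b i) v i|)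
  have hsum0 : 0 ≤ ∑ i, |u (b i) v i| := Finset.sum_nonneg fun _ _ => abs_nonneg _
  have hk₃ : ‖v‖ ≤ k₃ := by linarith
  have hk₃u : ∀ i, |u (b i) v i| ≤ k₃ := by
    intro i
    have h1 := Finset.single_le_sum (f := fun i => |u (b i) v i|) (fun _ _ => abs_nonneg _)
      (Finset.mem_univ i)
    have h2 := norm_nonneg v
    linarith
  set k := max k₁ (max k₂ k₃) with hk
  have hkr1 : (k₁ : ℝ) ≤ k := by exact_mod_cast le_max_left _ _
  have hkr2 : (k₂ : ℝ) ≤ k := by exact_mod_cast (le_max_left _ _).trans (le_max_right _ _)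
  have hkr3 : (k₃ : ℝ) ≤ k := by exact_mod_cast (le_max_right _ _).trans (le_max_right _ _)
  refine mem_iUnion.2 ⟨n, mem_iUnion.2 ⟨j, mem_iUnion.2 ⟨k, hv, ⟨hk₃.trans hkr3,
    fun i => (hk₃u i).trans hkr3⟩, hgd, ?_⟩⟩⟩
  calc ENNReal.ofReal (1 / ((k : ℝ) + 1)) ≤ (k₂ : ℝ≥0∞)⁻¹ := by
        rw [one_div, ENNReal.ofReal_inv_of_pos (by positivity)]
        apply ENNReal.inv_le_inv.2
        rw [← ENNReal.ofReal_natCast]
        apply ENNReal.ofReal_le_ofReal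
        linarith
    _ ≤ volume {t : ℝ | t ∈ cell n j ∧ (a v + t • v, t) ∈ {p ∈ K | ‖p.1‖ ≤ k₁}} := hk₂.le
    _ ≤ _ := by
        apply measure_mono
        rintro t ⟨h1, h2, h3⟩
        exact ⟨h1, h2, h3.trans hkr1⟩

/-- **Towers of front families**, slope coordinates. -/
theorem main (T : Tow b D α β u a) {S : Set (ι → ℝ)} {K : Set ((ι → ℝ) × ℝ)} (hS : volume S ≠ 0)
    (hSD : ∀ v ∈ S, ∀ i, v ∈ D (b i))
    (hK : ∀ v ∈ S, volume {t : ℝ | (∀ i, t ∈ Icc (α (b i) v) (β (b i) v)) ∧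
      (a v + t • v, t) ∈ K} ≠ 0) :
    ((Fintype.card ι + 1 : ℕ) : ℝ≥0∞) ≤ dimH K ∧ ∃ c : ℝ, 0 < c ∧ ∀ δ : ℝ, 0 < δ → δ ≤ 1 →
      ENNReal.ofReal (c / (1 + Real.log (1 / δ)) ^ (2 * Fintype.card ι * 3 ^ Fintype.card ι)) ≤
        volume (thickening δ K) := by
  classical
  obtain ⟨n, j, k, hvol⟩ : ∃ (n : ℕ) (j : ℤ) (k : ℕ), volume (Sl b α β u a S K n j k) ≠ 0 := by
    by_contra hc
    push Not at hc
    apply hS
    exact measure_mono_null (cover (u := u) hK) (measure_iUnion_null fun n => measure_iUnion_null fun j =>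
      measure_iUnion_null fun k => hc n j k)
  set c : ℝ := (j : ℝ) / (n + 1) with hc
  set h : ℝ := 1 / ((n : ℝ) + 1) with hh
  have hh0 : 0 < h := by positivity
  set S₁ := Sl b α β u a S K n j k with hS₁
  set L : ℝ := k + |c| + h with hL
  have hk0 : (0 : ℝ) ≤ k := Nat.cast_nonneg _
  have hc0 := abs_nonneg c
  have hL0 : 0 ≤ L := by positivity
  have hcL : |c| ≤ L := by linarith
  have hcL2 : |c + h| ≤ L := by
    have := abs_add_le c h
    rw [abs_of_pos hh0] at this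
    linarith
  obtain ⟨ρ, hρ, TJ⟩ := T.toTowJ hL0 hcL hcL2
  set M : ℕ := Finset.univ.sup b + 1 with hM
  have hbM : ∀ i, b i < M := fun i => by
    have := Finset.le_sup (f := b) (Finset.mem_univ i)
    omega
  obtain ⟨θ, hθ0, hθ1, hθ3, C, hC, hest⟩ :=
    tower_est (L := L) (R := (k : ℝ) + 3) (A := L) c hρ hh0 hL0 (by positivity) hL0 M ι b hbM
  set DD : Set (ι → ℝ) := ⋂ m ∈ Finset.range M, Dh b D α β u L c h m with hDD
  have hSDD : S₁ ⊆ DD := by
    intro v hv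
    rw [hDD, mem_iInter₂]
    intro m _
    obtain ⟨h1, ⟨h2, h2u⟩, h3, h4⟩ := hv
    refine ⟨fun i _ => ?_, fun i hi => ?_⟩
    · have := (norm_le_pi_norm v i).trans h2
      rw [Real.norm_eq_abs] at this
      linarith
    · rw [← hi]
      refine ⟨hSD v h1 i, (h3 i).1, (h3 i).2, ?_⟩
      have := h2u i
      linarith
  have hSL : S₁ ⊆ closedBall 0 L := by
    intro v hv
    rw [mem_closedBall_zero_iff]
    have := hv.2.1.1
    linarith
  have hest' : ∀ δ : ℝ, 0 < δ → δ ≤ 1 → EstAt (Icc c (c + h)) L ((k : ℝ) + 3) δ θ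
      (C * Lg δ ^ (2 * Fintype.card ι)) DD a := fun δ hδ hδ1 => hest δ hδ hδ1 _ _ _ TJ
  have hsub : {p ∈ K | ‖p.1‖ ≤ k} ⊆ K := fun p hp => hp.1
  refine ⟨?_, ?_⟩
  · exact (core_haus measurableSet_Icc hθ0 hC hest' T.meas_a hSDD hSL hvol
      (K := {p ∈ K | ‖p.1‖ ≤ k}) (fun p hp => hp.2) (lam := 1 / ((k : ℝ) + 1)) (by positivity)
      (fun v hv => hv.2.2.2)).trans (dimH_mono hsub)
  · obtain ⟨c', hc', hlow⟩ := core_nbhd measurableSet_Icc hθ0 hC hest' T.meas_a hSDD hSL hvol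
      (K := {p ∈ K | ‖p.1‖ ≤ k}) (fun p hp => hp.2) (lam := 1 / ((k : ℝ) + 1)) (by positivity)
      (fun v hv => hv.2.2.2)
    refine ⟨c', hc', ?_⟩
    intro δ hδ hδ1
    have hlog : 0 ≤ Real.log (1 / δ) := Real.log_nonneg (by rw [le_div_iff₀ hδ]; linarith)
    refine le_trans ?_ ((hlow δ hδ hδ1).trans (measure_mono (thickening_subset_of_subset δ hsub)))
    apply ENNReal.ofReal_le_ofReal
    apply div_le_div_of_nonneg_left hc'.le (by positivity)
    rw [← Real.rpow_natCast]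
    apply Real.rpow_le_rpow_of_exponent_le (by linarith)
    rw [div_le_iff₀ hθ0]
    push_cast
    have h3 : (1 : ℝ) ≤ 3 ^ Fintype.card ι * θ := by
      calc (1 : ℝ) = 3 ^ Fintype.card ι * (1 / 3) ^ Fintype.card ι := by
            rw [← mul_pow]
            norm_num
        _ ≤ _ := by gcongr
    have h4 : (0 : ℝ) ≤ 2 * (Fintype.card ι : ℝ) := by positivity
    nlinarith

end loc

end Run7.h523.TW
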