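import Pool.Agent.Run7.h523.TW.BlockU

set_option autoImplicit false
set_option linter.unusedSectionVars false

/-!
# Towers: induction on the number of blocks
-/

open MeasureTheory Set Metric
open scoped ENNReal

namespace Run7.h523.TW

/-- Euclidean norm of the block number `m` -/
noncomputable def bn {ι : Type*} [Fintype ι] (b : ι → ℕ) (m : ℕ) (u : ι → ℝ) : ℝ :=
  √(∑ i, if b i = m then u i ^ 2 else 0)

/-- Towers of front families, for the heights in `J` and with the fixed threshold `ρ`; `u m v` is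
the axis of the block number `m`. -/
structure TowJ {ι : Type*} [Fintype ι] (b : ι → ℕ) (ρ A : ℝ) (J : Set ℝ) (D : ℕ → Set (ι → ℝ))
    (u : ℕ → (ι → ℝ) → (ι → ℝ)) (a : (ι → ℝ) → (ι → ℝ)) : Prop where
  meas_a : Measurable a
  meas_D : ∀ m, MeasurableSet (D m)
  dom : ∀ m v w, (∀ j, b j ≤ m → v j = w j) → v ∈ D m → w ∈ D m
  tri : ∀ v w i, (∀ j, b j ≤ b i → v j = w j) → a v i = a w i
  u_bd : ∀ m, ∀ v ∈ D m, ∀ i, b i = m → |u m v i| ≤ A
  u_dep : ∀ m v w, (∀ j, b j < m → v j = w j) → ∀ i, b i = m → u m v i = u m w i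
  front : ∀ m, 2 ≤ Fintype.card {i // b i = m} → ∀ v ∈ D m, ∀ w ∈ D m,
    (∀ j, b j < m → v j = w j) → bn b m (v - u m v) = bn b m (w - u m w) →
    bn b m (v - w) ≤ ρ → ∀ s ∈ J, ∀ s' ∈ J, |s - s'| ≤ ρ →
    bn b m ((a v + s • (v - u m v)) - (a w + s' • (w - u m w))) ≤ ρ →
    bn b m (v - u m v) * |s - s'| ≤
      bn b m ((a v + s • (v - u m v)) - (a w + s' • (w - u m w)))

section step

variable {ι : Type} [Fintype ι] {b : ι → ℕ} {ρ A : ℝ} {J : Set ℝ} {D : ℕ → Set (ι → ℝ)}
  {u : ℕ → (ι → ℝ) → (ι → ℝ)} {a : (ι → ℝ) → (ι → ℝ)} {M : ℕ}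

theorem sum_sub (p : ι → Prop) [DecidablePred p] (g : ι → ℝ) :
    ∑ i : {i // p i}, g i.1 = ∑ i, if p i then g i else 0 := by
  rw [← Finset.sum_filter, Finset.sum_subtype (Finset.univ.filter p) (p := p) (by simp) g]

theorem bn_base {k : ℕ} (hk : k < M) (u : ι → ℝ) :
    bn (fun i : {i // b i < M} => b i.1) k (fun i => u i.1) = bn b k u := by
  unfold bn
  congr 1
  rw [sum_sub (fun i => b i < M) (fun i => if b i = k then u i ^ 2 else 0)]
  apply Finset.sum_congr rfl
  intro i _
  by_cases h : b i = k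
  · rw [if_pos h, if_pos (by omega)]
  · simp [h]

theorem nrm_fib (hb : ∀ i, b i < M + 1) (u : ι → ℝ) :
    nrm (fun i : {i // ¬ b i < M} => u i.1) = bn b M u := by
  unfold nrm bn
  congr 1
  rw [sum_sub (fun i => ¬ b i < M) (fun i => u i ^ 2)]
  apply Finset.sum_congr rfl
  intro i _
  have := hb i
  by_cases h : b i = M
  · rw [if_pos h, if_pos (by omega)]
  · rw [if_neg h, if_neg (by omega)]

/-- the base family -/
def da (a : (ι → ℝ) → (ι → ℝ)) (b : ι → ℕ) (M : ℕ) (x : {i // b i < M} → ℝ) :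
    {i // b i < M} → ℝ := fun i => a (join x 0) i.1

/-- its domains -/
def dD (D : ℕ → Set (ι → ℝ)) (b : ι → ℕ) (M k : ℕ) : Set ({i // b i < M} → ℝ) :=
  {x | join x 0 ∈ D k}

theorem join_apply_pos {x : {i // b i < M} → ℝ} {y : {i // ¬ b i < M} → ℝ} {i : ι} (h : b i < M) :
    join x y i = x ⟨i, h⟩ := by simp [join, h]

theorem measurable_join0 : Measurable (fun x : {i // b i < M} → ℝ => join (p := fun i => b i < M) x 0) :=
  measurable_join.comp (measurable_id.prodMk measurable_const)

/-- its axes -/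
def du (u : ℕ → (ι → ℝ) → (ι → ℝ)) (b : ι → ℕ) (M k : ℕ) (x : {i // b i < M} → ℝ) :
    {i // b i < M} → ℝ := fun i => u k (join x 0) i.1

theorem bn_base' {k : ℕ} (hk : k < M) {x : {i // b i < M} → ℝ} {y : ι → ℝ}
    (h : ∀ i : {i // b i < M}, x i = y i.1) :
    bn (fun i : {i // b i < M} => b i.1) k x = bn b k y := by
  rw [← bn_base hk y]
  congr 1
  ext i
  exact h i

theorem TowJ.base (T : TowJ b ρ A J D u a) :
    TowJ (fun i : {i // b i < M} => b i.1) ρ A J (dD D b M) (du u b M) (da a b M) where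
  meas_a := by
    rw [measurable_pi_iff]
    intro i
    exact (measurable_pi_apply i.1).comp (T.meas_a.comp measurable_join0)
  meas_D := fun k => measurable_join0 (T.meas_D k)
  dom := by
    intro k v w hvw hv
    refine T.dom k _ _ ?_ hv
    intro j hj
    by_cases h : b j < M
    · rw [join_apply_pos h, join_apply_pos h]
      exact hvw ⟨j, h⟩ hj
    · simp [join, h]
  tri := by
    intro v w i hvw
    refine T.tri _ _ _ ?_
    intro j hj
    by_cases h : b j < M
    · rw [join_apply_pos h, join_apply_pos h]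
      exact hvw ⟨j, h⟩ hj
    · simp [join, h]
  u_bd := fun k v hv i hi => T.u_bd k _ hv i.1 hi
  u_dep := by
    intro k v w hvw i hi
    refine T.u_dep k _ _ ?_ i.1 hi
    intro j hj
    by_cases h : b j < M
    · rw [join_apply_pos h, join_apply_pos h]
      exact hvw ⟨j, h⟩ hj
    · simp [join, h]
  front := by
    intro k hk v hv w hw hvw h1 h2 s hs s' hs' h3 h4
    have hkM : k < M := by
      have hpos : 0 < Fintype.card {i : {i // b i < M} // b i.1 = k} := by
        have : 2 ≤ Fintype.card {i : {i // b i < M} // b i.1 = k} := hk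
        omega
      obtain ⟨i⟩ := Fintype.card_pos_iff.1 hpos
      have h5 := i.1.2
      have h6 := i.2
      omega
    have hcard : 2 ≤ Fintype.card {i : ι // b i = k} := by
      refine le_trans hk (Fintype.card_le_of_injective
        (fun i : {i : {i // b i < M} // b i.1 = k} => (⟨i.1.1, i.2⟩ : {i : ι // b i = k})) ?_)
      intro i j hij
      simp only [Subtype.mk.injEq] at hij
      exact Subtype.ext (Subtype.ext hij)
    have e1 : ∀ x : {i // b i < M} → ℝ,
        bn (fun i : {i // b i < M} => b i.1) k (x - du u b M k x) =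
          bn b k (join x 0 - u k (join x 0)) := by
      intro x
      apply bn_base' hkM
      intro i
      simp only [Pi.sub_apply, du]
      rw [join_apply_pos i.2]
    have e2 : bn (fun i : {i // b i < M} => b i.1) k (v - w) = bn b k (join v 0 - join w 0) := by
      apply bn_base' hkM
      intro i
      simp only [Pi.sub_apply]
      rw [join_apply_pos i.2, join_apply_pos i.2]
    have e3 : bn (fun i : {i // b i < M} => b i.1) k
        ((da a b M v + s • (v - du u b M k v)) - (da a b M w + s' • (w - du u b M k w))) =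
        bn b k ((a (join v 0) + s • (join v 0 - u k (join v 0))) -
          (a (join w 0) + s' • (join w 0 - u k (join w 0)))) := by
      apply bn_base' hkM
      intro i
      simp only [Pi.sub_apply, Pi.add_apply, Pi.smul_apply, da, du]
      rw [join_apply_pos i.2, join_apply_pos i.2]
    rw [e1, e3]
    refine T.front k hcard _ hv _ hw ?_ (by rw [← e1, ← e1, h1]) (by rw [← e2]; exact h2) s hs s'
      hs' h3 (by rw [← e3]; exact h4)
    intro j hj
    have hjM : b j < M := by omega
    rw [join_apply_pos hjM, join_apply_pos hjM]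
    exact hvw ⟨j, hjM⟩ hj

/-- the fibre families -/
def fa (a : (ι → ℝ) → (ι → ℝ)) (b : ι → ℕ) (M : ℕ) (x : {i // b i < M} → ℝ)
    (y : {i // ¬ b i < M} → ℝ) : {i // ¬ b i < M} → ℝ := fun i => a (join x y) i.1

/-- their domains -/
def fD (D : ℕ → Set (ι → ℝ)) (b : ι → ℕ) (M : ℕ) (x : {i // b i < M} → ℝ) :
    Set ({i // ¬ b i < M} → ℝ) := {y | join x y ∈ D M}

theorem measurable_joinx (x : {i // b i < M} → ℝ) :
    Measurable (fun y : {i // ¬ b i < M} → ℝ => join (p := fun i => b i < M) x y) :=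
  measurable_join.comp (measurable_const.prodMk measurable_id)

/-- the axes of the fibre families -/
def fu (u : ℕ → (ι → ℝ) → (ι → ℝ)) (b : ι → ℕ) (M : ℕ) (x : {i // b i < M} → ℝ) :
    {i // ¬ b i < M} → ℝ := fun i => u M (join x 0) i.1

theorem fu_eq (T : TowJ b ρ A J D u a) (hb : ∀ i, b i < M + 1) (x : {i // b i < M} → ℝ)
    (y : {i // ¬ b i < M} → ℝ) (i : {i // ¬ b i < M}) : fu u b M x i = u M (join x y) i.1 := by
  refine T.u_dep M _ _ ?_ i.1 ?_
  · intro j hj
    rw [join_apply_pos hj, join_apply_pos hj]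
  · have := hb i.1
    have := i.2
    omega

theorem nrm_fib' (hb : ∀ i, b i < M + 1) {y : {i // ¬ b i < M} → ℝ} {z : ι → ℝ}
    (h : ∀ i : {i // ¬ b i < M}, y i = z i.1) : nrm y = bn b M z := by
  rw [← nrm_fib hb z]
  congr 1
  ext i
  exact h i

theorem TowJ.fib (T : TowJ b ρ A J D u a) (hb : ∀ i, b i < M + 1) (x : {i // b i < M} → ℝ)
    (S : Set ({i // ¬ b i < M} → ℝ)) :
    LocU ρ J (fD D b M x ∩ S) (fu u b M x) (fa a b M x) := by
  intro hcard y hy z hz h1 h2 s hs s' hs' h3 h4
  have hc : 2 ≤ Fintype.card {i : ι // b i = M} := by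
    refine le_trans hcard (Fintype.card_le_of_injective
      (fun i : {i : ι // ¬ b i < M} => (⟨i.1, by have := hb i.1; have := i.2; omega⟩ :
        {i : ι // b i = M})) ?_)
    intro i j hij
    simp only [Subtype.mk.injEq] at hij
    exact Subtype.ext hij
  have hj : ∀ (y : {i // ¬ b i < M} → ℝ) (i : {i // ¬ b i < M}),
      join x y i.1 = y i := by
    intro y i
    simp [join, i.2]
  have e1 : ∀ y : {i // ¬ b i < M} → ℝ,
      nrm (y - fu u b M x) = bn b M (join x y - u M (join x y)) := by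
    intro y
    apply nrm_fib' hb
    intro i
    simp only [Pi.sub_apply]
    rw [hj, fu_eq T hb x y]
  have e2 : nrm (y - z) = bn b M (join x y - join x z) := by
    apply nrm_fib' hb
    intro i
    simp only [Pi.sub_apply]
    rw [hj, hj]
  have e3 : nrm ((fa a b M x y + s • (y - fu u b M x)) - (fa a b M x z + s' • (z - fu u b M x))) =
      bn b M ((a (join x y) + s • (join x y - u M (join x y))) -
        (a (join x z) + s' • (join x z - u M (join x z)))) := by
    apply nrm_fib' hb
    intro i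
    simp only [Pi.sub_apply, Pi.add_apply, Pi.smul_apply, fa]
    rw [hj, hj, ← fu_eq T hb x y, ← fu_eq T hb x z]
  rw [e1, e3]
  refine T.front M hc _ hy.1 _ hz.1 ?_ (by rw [← e1, ← e1, h1]) (by rw [← e2]; exact h2) s hs s'
    hs' h3 (by rw [← e3]; exact h4)
  intro j hj
  rw [join_apply_pos hj, join_apply_pos hj]

end step

theorem tower_est {ρ h L R A : ℝ} (c : ℝ) (hρ : 0 < ρ) (hh : 0 < h) (hL : 0 ≤ L) (hR : 0 < R)
    (hA : 0 ≤ A) :
    ∀ (M : ℕ) (ι : Type) [Fintype ι] (b : ι → ℕ), (∀ i, b i < M) →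
    ∃ θ : ℝ, 0 < θ ∧ θ ≤ 1 ∧ (1 / 3 : ℝ) ^ (Fintype.card ι) ≤ θ ∧ ∃ C : ℝ≥0∞, C ≠ ∞ ∧
      ∀ δ : ℝ, 0 < δ → δ ≤ 1 → ∀ (D : ℕ → Set (ι → ℝ)) (u : ℕ → (ι → ℝ) → (ι → ℝ))
      (a : (ι → ℝ) → (ι → ℝ)), TowJ b ρ A (Icc c (c + h)) D u a →
      EstAt (Icc c (c + h)) L R δ θ (C * Lg δ ^ (2 * Fintype.card ι)) (⋂ m ∈ Finset.range M, D m)
        a := by
  classical
  intro M
  induction M with
  | zero =>
    intro ι _ b hb
    have h0 : Fintype.card ι = 0 := by
      rw [Fintype.card_eq_zero_iff]
      exact ⟨fun i => absurd (hb i) (Nat.not_lt_zero _)⟩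
    refine ⟨1, one_pos, le_rfl, by rw [h0, pow_zero], 1, ENNReal.one_ne_top, ?_⟩
    intro δ hδ hδ1 D u a _
    rw [h0, mul_zero, pow_zero, one_mul]
    exact block_zero h0 _ _
  | succ M ih =>
    intro ι _ b hb
    obtain ⟨θ', hθ'0, hθ'1, hθ'3, C', hC', h'⟩ := ih {i // b i < M} (fun i => b i.1) (fun i => i.2)
    obtain ⟨θ'', hθ0, hθ1, hθ3, C'', hC'', h''⟩ :=
      blockU (κ := {i // ¬ b i < M}) c R hρ hh hL hA
    set n' := Fintype.card {i // b i < M} with hn'
    set n'' := Fintype.card {i // ¬ b i < M} with hn''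
    have hn : Fintype.card ι = n' + n'' := by
      have h1 := Fintype.card_subtype_compl (fun i : ι => b i < M)
      have h2 := Fintype.card_subtype_le (fun i : ι => b i < M)
      rw [hn', hn'']
      omega
    set M1 := volume (closedBall (0 : {i // b i < M} → ℝ) 1) with hM1
    set V := volume (closedBall (0 : {i // b i < M} → ℝ) L) with hV
    set M2 := volume (closedBall (0 : {i // ¬ b i < M} → ℝ) R) with hM2
    have e1 : 0 ≤ 1 - θ'' := by linarith
    have e2 : 0 ≤ 1 - θ' := by linarith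
    refine ⟨θ' * θ'', by positivity, mul_le_one₀ hθ'1 hθ0.le hθ1, ?_,
      C'' * M1 ^ (1 - θ'') * (V ^ (1 - θ'') * (C' * M2 ^ (1 - θ')) ^ θ''), ?_, ?_⟩
    · rw [hn, pow_add]
      gcongr
    · have t1 : M1 ≠ ∞ := measure_closedBall_lt_top.ne
      have t2 : V ≠ ∞ := measure_closedBall_lt_top.ne
      have t3 : M2 ≠ ∞ := measure_closedBall_lt_top.ne
      exact ENNReal.mul_ne_top (ENNReal.mul_ne_top hC'' (ENNReal.rpow_ne_top_of_nonneg e1 t1))
        (ENNReal.mul_ne_top (ENNReal.rpow_ne_top_of_nonneg e1 t2)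
          (ENNReal.rpow_ne_top_of_nonneg hθ0.le (ENNReal.mul_ne_top hC'
            (ENNReal.rpow_ne_top_of_nonneg e2 t3))))
    · intro δ hδ hδ1 D u a T
      have hL1 := one_le_Lg hδ hδ1
      have hDm : MeasurableSet (⋂ m ∈ Finset.range (M + 1), D m) :=
        Finset.measurableSet_biInter _ fun m _ => T.meas_D m
      have hDm' : MeasurableSet (⋂ m ∈ Finset.range M, dD D b M m) :=
        Finset.measurableSet_biInter _ fun m _ => (TowJ.base T).meas_D m
      have hsub : ∀ (x : {i // b i < M} → ℝ) (y : {i // ¬ b i < M} → ℝ),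
          join x y ∈ (⋂ m ∈ Finset.range (M + 1), D m) →
          x ∈ (⋂ m ∈ Finset.range M, dD D b M m) ∧ y ∈ fD D b M x := by
        intro x y hxy
        rw [mem_iInter₂] at hxy
        refine ⟨?_, hxy M (Finset.mem_range.2 (by omega))⟩
        rw [mem_iInter₂]
        intro m hm
        have hmM := Finset.mem_range.1 hm
        refine T.dom m _ _ ?_ (hxy m (Finset.mem_range.2 (by omega)))
        intro j hj
        have hjM : b j < M := by omega
        rw [join_apply_pos hjM, join_apply_pos hjM]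
      have hav : ∀ (x : {i // b i < M} → ℝ) (y : {i // ¬ b i < M} → ℝ),
          join x y ∈ (⋂ m ∈ Finset.range (M + 1), D m) →
          a (join x y) = join (da a b M x) (fa a b M x y) := by
        intro x y _
        ext i
        by_cases hi : b i < M
        · rw [join_apply_pos hi]
          unfold da
          apply T.tri
          intro j hj
          have hjM : b j < M := by omega
          rw [join_apply_pos hjM, join_apply_pos hjM]
        · simp [join, hi, fa]
      have hfm : ∀ x, MeasurableSet (fD D b M x) := fun x => measurable_joinx x (T.meas_D M)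
      have hfa : ∀ x, Measurable (fa a b M x) := by
        intro x
        rw [measurable_pi_iff]
        intro i
        exact (measurable_pi_apply i.1).comp (T.meas_a.comp (measurable_joinx x))
      have hfib : ∀ x ∈ (⋂ m ∈ Finset.range M, dD D b M m),
          EstAt (Icc c (c + h)) L R δ θ'' (C'' * Lg δ ^ (2 * n'')) (fD D b M x) (fa a b M x) := by
        intro x _
        rcases (fD D b M x).eq_empty_or_nonempty with he | ⟨y, hy⟩
        · refine h'' δ hδ hδ1 (fD D b M x) (fa a b M x) 0 (hfa x) (hfm x) (by simpa using hA) ?_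
          intro _ v hv
          rw [he] at hv
          exact absurd hv.1 (notMem_empty _)
        · refine h'' δ hδ hδ1 (fD D b M x) (fa a b M x) (fu u b M x) (hfa x) (hfm x) ?_
            (T.fib hb x _)
          rw [pi_norm_le_iff_of_nonneg hA]
          intro i
          rw [Real.norm_eq_abs, fu_eq T hb x y i]
          refine T.u_bd M _ hy i.1 ?_
          have := hb i.1
          have := i.2
          omega
      have hext := ext_est (J := Icc c (c + h)) measurableSet_Icc hR hL hDm T.meas_a hDm'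
        (TowJ.base T).meas_a hfm hsub hav hθ'0 hθ0 hθ1
        (h' δ hδ hδ1 (dD D b M) (du u b M) (da a b M) (TowJ.base T)) hfib
      refine hext.mono ?_
      rw [← hM1, ← hV, ← hM2]
      calc C'' * Lg δ ^ (2 * n'') * M1 ^ (1 - θ'') *
            (V ^ (1 - θ'') * (C' * Lg δ ^ (2 * n') * M2 ^ (1 - θ')) ^ θ'')
          ≤ C'' * Lg δ ^ (2 * n'') * M1 ^ (1 - θ'') *
            (V ^ (1 - θ'') * ((C' * M2 ^ (1 - θ')) ^ θ'' * Lg δ ^ (2 * n'))) := by
            gcongr
            rw [mul_right_comm, ENNReal.mul_rpow_of_nonneg _ _ hθ0.le]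
            gcongr
            calc (Lg δ ^ (2 * n')) ^ θ'' ≤ (Lg δ ^ (2 * n')) ^ (1 : ℝ) :=
                  ENNReal.rpow_le_rpow_of_exponent_le (one_le_pow₀ hL1) hθ1
              _ = _ := ENNReal.rpow_one _
        _ = _ := by
            rw [hn, mul_add, pow_add]
            ring

end Run7.h523.TW
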