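import Pool.Agent.Run7.h523.TW.Base

set_option autoImplicit false
set_option linter.unusedSectionVars false

/-!
# Changes of variables
-/

open MeasureTheory Set Metric
open scoped ENNReal

namespace Run7.h523.TW

open Run7.h523.WF (E)

theorem lint_smul {d : ℕ} {r : ℝ} (hr : 0 < r) {F : E d → ℝ≥0∞} (hF : Measurable F) :
    ∫⁻ x, F x = ENNReal.ofReal (r ^ d) * ∫⁻ x, F (r • x) := by
  have h1 := Measure.map_addHaar_smul (volume : Measure (E d)) hr.ne'
  have h2 : ∫⁻ x, F (r • x) = ∫⁻ y, F y ∂(Measure.map (fun x => r • x) volume) := by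
    rw [lintegral_map hF (measurable_const_smul r)]
  rw [h2, h1, lintegral_smul_measure, finrank_euclideanSpace_fin, smul_eq_mul, ← mul_assoc,
    ← ENNReal.ofReal_mul (by positivity), abs_of_pos (by positivity), mul_inv_cancel₀ (by positivity),
    ENNReal.ofReal_one, one_mul]

theorem lint_affine {d : ℕ} {r : ℝ} (hr : 0 < r) (b : E d) {F : E d → ℝ≥0∞} (hF : Measurable F) :
    ∫⁻ x, F x = ENNReal.ofReal (r ^ d) * ∫⁻ x, F (b + r • x) := by
  rw [← lintegral_add_left_eq_self F b, lint_smul hr (F := fun x => F (b + x)) (by fun_prop)]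

theorem lint_real {h : ℝ} (hh : 0 < h) (c : ℝ) {F : ℝ → ℝ≥0∞} (hF : Measurable F) :
    ∫⁻ t, F t = ENNReal.ofReal h * ∫⁻ u, F (c + h * u) := by
  rw [← lintegral_add_left_eq_self F c]
  have h1 := Real.smul_map_volume_mul_left hh.ne'
  nth_rewrite 1 [← h1]
  rw [lintegral_smul_measure, abs_of_pos hh, lintegral_map (by fun_prop) (by fun_prop), smul_eq_mul]

section phi

variable {κ : Type*} [Fintype κ] {d : ℕ}

/-- coordinates indexed by `κ` from Euclidean coordinates -/
def phi (e : κ ≃ Fin d) (x : E d) : κ → ℝ := fun k => x (e k)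

/-- inverse of `phi` -/
noncomputable def psi (e : κ ≃ Fin d) (u : κ → ℝ) : E d := WithLp.toLp 2 (fun i => u (e.symm i))

theorem phi_psi (e : κ ≃ Fin d) (u : κ → ℝ) : phi e (psi e u) = u := by
  ext k
  simp [phi, psi]

theorem psi_phi (e : κ ≃ Fin d) (x : E d) : psi e (phi e x) = x := by
  ext i
  simp [phi, psi]

theorem phi_add (e : κ ≃ Fin d) (x y : E d) : phi e (x + y) = phi e x + phi e y := rfl

theorem phi_sub (e : κ ≃ Fin d) (x y : E d) : phi e (x - y) = phi e x - phi e y := rfl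

theorem phi_smul (e : κ ≃ Fin d) (c : ℝ) (x : E d) : phi e (c • x) = c • phi e x := rfl

theorem measurable_phi (e : κ ≃ Fin d) : Measurable (phi e) := by
  rw [measurable_pi_iff]
  intro k
  unfold phi
  fun_prop

theorem measurable_psi (e : κ ≃ Fin d) : Measurable (psi e) := by
  unfold psi
  apply (WithLp.measurable_toLp 2 _).comp
  rw [measurable_pi_iff]
  intro i
  fun_prop

/-- Euclidean norm -/
noncomputable def nrm (u : κ → ℝ) : ℝ := √(∑ k, u k ^ 2)

theorem nrm_phi (e : κ ≃ Fin d) (x : E d) : nrm (phi e x) = ‖x‖ := by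
  unfold nrm phi
  rw [EuclideanSpace.norm_eq]
  congr 1
  rw [← e.sum_comp]
  simp

theorem nrm_le {u : κ → ℝ} {L : ℝ} (h : ‖u‖ ≤ L) (hc : Fintype.card κ = d) :
    nrm u ≤ √d * L := by
  have hL : 0 ≤ L := (norm_nonneg _).trans h
  unfold nrm
  rw [← Real.sqrt_sq hL, ← Real.sqrt_mul (by positivity)]
  apply Real.sqrt_le_sqrt
  calc ∑ k, u k ^ 2 ≤ ∑ _k : κ, L ^ 2 := by
        apply Finset.sum_le_sum
        intro k _
        have h1 := (norm_le_pi_norm u k).trans h
        rw [Real.norm_eq_abs] at h1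
        rw [← sq_abs]
        gcongr
    _ = _ := by
        rw [Finset.sum_const, Finset.card_univ, hc, nsmul_eq_mul]

theorem mp_phi (e : κ ≃ Fin d) : MeasurePreserving (phi e) := by
  have h1 := volume_measurePreserving_piCongrLeft (fun _ : κ => ℝ) e.symm
  have h2 := h1.comp (PiLp.volume_preserving_ofLp (Fin d))
  have h3 : (phi e : E d → κ → ℝ) =
      ⇑(MeasurableEquiv.piCongrLeft (fun _ : κ => ℝ) e.symm) ∘ WithLp.ofLp := by
    funext x
    funext k
    simp only [phi, Function.comp]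
    have := MeasurableEquiv.piCongrLeft_apply_apply (e := e.symm) (β := fun _ : κ => ℝ)
      (x := WithLp.ofLp x) (i := e k)
    simp only [Equiv.symm_apply_apply] at this
    exact this.symm
  rw [h3]
  exact h2

theorem lint_phi (e : κ ≃ Fin d) {F : (κ → ℝ) → ℝ≥0∞} (hF : Measurable F) :
    ∫⁻ u, F u = ∫⁻ x, F (phi e x) :=
  ((mp_phi e).lintegral_comp hF).symm

end phi

end Run7.h523.TW
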