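import Pool.Agent.Run7.h523.TW.Final

set_option autoImplicit false
set_option linter.unusedSectionVars false

/-!
# Transfer to Euclidean space
-/

open MeasureTheory Set Metric Filter Topology
open scoped ENNReal NNReal

namespace Run7.h523.TW

/-- `(x, t) ↦ (t, x)` into Euclidean space -/
noncomputable def Psi {N : ℕ} (p : (Fin N → ℝ) × ℝ) : EuclideanSpace ℝ (Fin (N + 1)) :=
  WithLp.toLp 2 (Fin.cons p.2 p.1)

variable {N : ℕ}

theorem Psi_sub (p q : (Fin N → ℝ) × ℝ) : Psi p - Psi q = Psi (p - q) := by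
  ext i
  refine Fin.cases ?_ (fun j => ?_) i <;> simp [Psi]

theorem Psi_normsq (p : (Fin N → ℝ) × ℝ) : ‖Psi p‖ ^ 2 = p.2 ^ 2 + ∑ j, p.1 j ^ 2 := by
  rw [EuclideanSpace.norm_sq_eq, Fin.sum_univ_succ]
  simp [Psi]

theorem norm_le_Psi (p : (Fin N → ℝ) × ℝ) : ‖p‖ ≤ ‖Psi p‖ := by
  rw [Prod.norm_def]
  refine max_le ?_ ?_
  · rw [pi_norm_le_iff_of_nonneg (norm_nonneg _)]
    intro j
    rw [Real.norm_eq_abs]
    refine abs_le_of_sq_le_sq ?_ (norm_nonneg _)
    rw [Psi_normsq]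
    have h1 : p.1 j ^ 2 ≤ ∑ j, p.1 j ^ 2 :=
      Finset.single_le_sum (f := fun j => p.1 j ^ 2) (fun _ _ => sq_nonneg _) (Finset.mem_univ j)
    have := sq_nonneg p.2
    linarith
  · rw [Real.norm_eq_abs]
    refine abs_le_of_sq_le_sq ?_ (norm_nonneg _)
    rw [Psi_normsq]
    have : 0 ≤ ∑ j, p.1 j ^ 2 := Finset.sum_nonneg fun _ _ => sq_nonneg _
    linarith

theorem Psi_le (p : (Fin N → ℝ) × ℝ) : ‖Psi p‖ ≤ √((N : ℝ) + 1) * ‖p‖ := by
  rw [← Real.sqrt_sq (norm_nonneg p), ← Real.sqrt_mul (by positivity),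
    ← Real.sqrt_sq (norm_nonneg (Psi p))]
  apply Real.sqrt_le_sqrt
  rw [Psi_normsq]
  have h1 : p.2 ^ 2 ≤ ‖p‖ ^ 2 := by
    rw [← sq_abs]
    have := norm_snd_le p
    rw [Real.norm_eq_abs] at this
    gcongr
  have h2 : ∀ j, p.1 j ^ 2 ≤ ‖p‖ ^ 2 := by
    intro j
    rw [← sq_abs]
    have := (norm_le_pi_norm p.1 j).trans (norm_fst_le p)
    rw [Real.norm_eq_abs] at this
    gcongr
  calc p.2 ^ 2 + ∑ j, p.1 j ^ 2 ≤ ‖p‖ ^ 2 + ∑ _j : Fin N, ‖p‖ ^ 2 := by
        exact add_le_add h1 (Finset.sum_le_sum fun j _ => h2 j)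
    _ = _ := by
        rw [Finset.sum_const, Finset.card_univ, Fintype.card_fin, nsmul_eq_mul]
        ring

theorem Psi_anti : AntilipschitzWith 1 (Psi (N := N)) := by
  apply AntilipschitzWith.of_le_mul_dist
  intro p q
  rw [dist_eq_norm, dist_eq_norm, Psi_sub, NNReal.coe_one, one_mul]
  exact norm_le_Psi _

theorem Psi_dist (p q : (Fin N → ℝ) × ℝ) : dist (Psi p) (Psi q) ≤ √((N : ℝ) + 1) * dist p q := by
  rw [dist_eq_norm, dist_eq_norm, Psi_sub]
  exact Psi_le _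

theorem Psi_mp : MeasurePreserving (Psi (N := N)) := by
  have h1 : MeasurePreserving (Prod.swap : (Fin N → ℝ) × ℝ → ℝ × (Fin N → ℝ)) :=
    Measure.measurePreserving_swap
  have h2 := (volume_preserving_piFinSuccAbove (fun _ : Fin (N + 1) => ℝ) 0).symm
  have h3 := PiLp.volume_preserving_toLp (Fin (N + 1))
  have h4 := (h3.comp h2).comp h1
  have h5 : (Psi (N := N)) = ((@WithLp.toLp 2 (Fin (N + 1) → ℝ)) ∘
      ⇑(MeasurableEquiv.piFinSuccAbove (fun _ : Fin (N + 1) => ℝ) 0).symm) ∘ Prod.swap := by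
    funext p
    simp only [Psi, Function.comp]
    congr 1
    funext i
    refine Fin.cases ?_ (fun j => ?_) i
    · simp [MeasurableEquiv.piFinSuccAbove]
    · simp [MeasurableEquiv.piFinSuccAbove]
  rw [h5]
  exact h4

theorem transfer_dim {K : Set (EuclideanSpace ℝ (Fin (N + 1)))}
    (h : ((N + 1 : ℕ) : ℝ≥0∞) ≤ dimH (Psi ⁻¹' K)) : dimH K = (N + 1 : ℕ) := by
  apply le_antisymm
  · refine (dimH_mono (subset_univ K)).trans (le_of_eq ?_)
    rw [Real.dimH_univ_eq_finrank, finrank_euclideanSpace_fin]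
  · refine h.trans ((Psi_anti.le_dimH_image _).trans (dimH_mono ?_))
    exact image_preimage_subset _ _

theorem transfer_nbhd {K : Set (EuclideanSpace ℝ (Fin (N + 1)))} {Q : ℕ} {c : ℝ} (hc : 0 < c)
    (h : ∀ δ : ℝ, 0 < δ → δ ≤ 1 → ENNReal.ofReal (c / (1 + Real.log (1 / δ)) ^ Q) ≤
      volume (thickening δ (Psi (N := N) ⁻¹' K))) :
    ∃ c' : ℝ, 0 < c' ∧ ∀ δ : ℝ, 0 < δ → δ ≤ 1 →
      ENNReal.ofReal (c' / (1 + Real.log (1 / δ)) ^ Q) ≤ volume (thickening δ K) := by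
  set r : ℝ := √((N : ℝ) + 1) with hr
  have hr1 : 1 ≤ r := by
    rw [hr, Real.one_le_sqrt]
    have : (0 : ℝ) ≤ N := Nat.cast_nonneg _
    linarith
  have hlr : 0 ≤ Real.log r := Real.log_nonneg hr1
  refine ⟨c / (1 + Real.log r) ^ Q, by positivity, ?_⟩
  intro δ hδ hδ1
  have hlog : 0 ≤ Real.log (1 / δ) := Real.log_nonneg (by rw [le_div_iff₀ hδ]; linarith)
  have hδr : 0 < δ / r := by positivity
  have h1 := h (δ / r) hδr (by rw [div_le_one (by linarith)]; linarith)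
  have h2 : thickening (δ / r) (Psi (N := N) ⁻¹' K) ⊆ Psi ⁻¹' thickening δ K := by
    intro p hp
    obtain ⟨q, hq, hd⟩ := mem_thickening_iff.1 hp
    rw [mem_preimage, mem_thickening_iff]
    refine ⟨Psi q, hq, ?_⟩
    refine (Psi_dist p q).trans_lt ?_
    rw [← hr]
    calc r * dist p q < r * (δ / r) := by gcongr
      _ = δ := by field_simp
  have h3 : volume (Psi (N := N) ⁻¹' thickening δ K) = volume (thickening δ K) :=
    Psi_mp.measure_preimage isOpen_thickening.measurableSet.nullMeasurableSet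
  rw [← h3]
  refine le_trans ?_ (h1.trans (measure_mono h2))
  apply ENNReal.ofReal_le_ofReal
  rw [div_div, ← mul_pow]
  apply div_le_div_of_nonneg_left hc.le
  · have : 0 ≤ Real.log (1 / (δ / r)) := by
      apply Real.log_nonneg
      rw [le_div_iff₀ hδr, one_mul, div_le_one (by linarith)]
      linarith
    positivity
  · have h0 : 0 ≤ Real.log (1 / (δ / r)) := by
      apply Real.log_nonneg
      rw [le_div_iff₀ hδr, one_mul, div_le_one (by linarith)]
      linarith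
    gcongr
    have e : (1 : ℝ) / (δ / r) = r * (1 / δ) := by field_simp
    rw [e, Real.log_mul (by positivity) (by positivity)]
    nlinarith

end Run7.h523.TW
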